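import Pool.Agent.Helper8.RX.Stm

set_option autoImplicit false

/-! Module GAIN (helper40). -/

namespace Pool.Agent.Helper8.RX

open NumberField IsDedekindDomain Height Polynomial Pool.Agent.Q290.NF Pool.Agent.Helper8.RC

theorem gain : S_GAIN := by
  classical
  intro K _ _ y hy v₀
  obtain ⟨x, hx⟩ : ∃ x : K, x = y⁻¹ := ⟨_, rfl⟩
  have hx0 : x ≠ 0 := by rw [hx]; exact inv_ne_zero hy
  have hP : ∀ v : HeightOneSpectrum (𝓞 K), (v.valuation K y < 1 ↔ 1 < v.valuation K x) := by
    intro v
    have h0 : v.valuation K y ≠ 0 := (Valuation.ne_zero_iff _).2 hy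
    rw [hx, map_inv₀]
    exact (one_lt_inv₀ (zero_lt_iff.2 h0)).symm
  have hwt : wt (fun v : HeightOneSpectrum (𝓞 K) => v.valuation K y < 1) =
      wt (fun v : HeightOneSpectrum (𝓞 K) => 1 < v.valuation K x) := by
    congr 1
    funext v
    exact propext (hP v)
  have hh : logHeight₁ y = logHeight₁ x := by
    rw [hx, logHeight₁_inv]
  have hlog : - Real.log (FinitePlace.mk v₀ y) = Real.log (FinitePlace.mk v₀ x) := by
    rw [hx, map_inv₀, Real.log_inv]
  rw [hwt, hh, sub_eq_add_neg, hlog, NumberField.logHeight₁_eq]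
  have h1 : 0 ≤ ∑ w : InfinitePlace K, (w.mult : ℝ) * Real.posLog (w x) :=
    Finset.sum_nonneg fun w _ => mul_nonneg (Nat.cast_nonneg _) Real.posLog_nonneg
  have h2 : ∑ᶠ w : FinitePlace K, Real.posLog (w x) =
      ∑ᶠ v : HeightOneSpectrum (𝓞 K), Real.posLog (FinitePlace.mk v x) :=
    (finsum_comp_equiv FinitePlace.equivHeightOneSpectrum.symm).symm
  set f : HeightOneSpectrum (𝓞 K) → ℝ := ind (fun v => 1 < v.valuation K x) with hf
  set g : HeightOneSpectrum (𝓞 K) → ℝ := fun v => Real.posLog (FinitePlace.mk v x) with hg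
  set s : Finset (HeightOneSpectrum (𝓞 K)) := insert v₀ (fin_pole x).toFinset with hs
  have hfs : Function.support f ⊆ (s : Set (HeightOneSpectrum (𝓞 K))) := by
    refine (supp_sub _).trans fun v hv => ?_
    rw [hs, Finset.coe_insert, Set.Finite.coe_toFinset]
    exact Or.inr hv
  have hgs : Function.support g ⊆ (s : Set (HeightOneSpectrum (𝓞 K))) := by
    intro v hv
    rw [hs, Finset.coe_insert, Set.Finite.coe_toFinset]
    right
    rw [Function.mem_support] at hv
    by_contra h
    rw [Set.mem_ofPred_eq, not_lt] at h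
    apply hv
    show Real.posLog (FinitePlace.mk v x) = 0
    rw [Real.posLog_eq_zero_iff, abs_of_nonneg (apply_nonneg _ _)]
    exact mk_le_one.2 h
  have hle : ∀ v, f v ≤ g v := by
    intro v
    by_cases h : 1 < v.valuation K x
    · rw [hf, ind_pos (P := fun v => 1 < v.valuation K x) h]
      have h4 := norm_le_mk h
      have h5 : (1 : ℝ) < (Ideal.absNorm v.asIdeal : ℝ) := by
        exact_mod_cast HeightOneSpectrum.one_lt_absNorm v
      show ell v ≤ Real.posLog (FinitePlace.mk v x)
      rw [Real.posLog_eq_log (by rw [abs_of_nonneg (apply_nonneg _ _)]; linarith)]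
      exact Real.log_le_log (by linarith) h4
    · rw [hf, ind_neg (P := fun v => 1 < v.valuation K x) h]
      exact Real.posLog_nonneg
  have hv₀ : v₀ ∈ s := Finset.mem_insert_self _ _
  have hfv : f v₀ ≤ ell v₀ := by
    by_cases h : 1 < v₀.valuation K x
    · rw [hf, ind_pos (P := fun v => 1 < v.valuation K x) h]
    · rw [hf, ind_neg (P := fun v => 1 < v.valuation K x) h]
      exact (ell_pos v₀).le
  have hgv : Real.log (FinitePlace.mk v₀ x) ≤ g v₀ := le_max_right 0 _
  have hsum : wt (fun v : HeightOneSpectrum (𝓞 K) => 1 < v.valuation K x) +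
      Real.log (FinitePlace.mk v₀ x) ≤
      (∑ᶠ v : HeightOneSpectrum (𝓞 K), Real.posLog (FinitePlace.mk v x)) + ell v₀ := by
    show ∑ᶠ v, f v + _ ≤ ∑ᶠ v, g v + _
    rw [finsum_eq_sum_of_support_subset f hfs, finsum_eq_sum_of_support_subset g hgs,
      ← Finset.add_sum_erase _ _ hv₀, ← Finset.add_sum_erase s g hv₀]
    have h3 : ∑ v ∈ s.erase v₀, f v ≤ ∑ v ∈ s.erase v₀, g v := Finset.sum_le_sum fun v _ => hle v
    linarith
  rw [h2]
  linarith

end Pool.Agent.Helper8.RX
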