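import Pool.Agent.Helper8.RX.Stm

set_option autoImplicit false

namespace Pool.Agent.Helper8.RX

open NumberField IsDedekindDomain Height Polynomial Pool.Agent.Q290.NF Pool.Agent.Helper8.RC

namespace HENS

variable {K : Type} [Field K] [NumberField K]

theorem mk_le (v : HeightOneSpectrum (𝓞 K)) (x : 𝓞 K) (k : ℕ) (h : x ∈ v.asIdeal ^ k) :
    FinitePlace.mk v (x : K) * (Ideal.absNorm v.asIdeal : ℝ) ^ k ≤ 1 := by
  have hN : (1 : ℝ) < (Ideal.absNorm v.asIdeal : ℝ) := by
    exact_mod_cast HeightOneSpectrum.one_lt_absNorm v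
  have h1 : v.valuation K (x : K) ≤ WithZero.exp (-(k : ℤ)) := by
    rw [HeightOneSpectrum.valuation_of_algebraMap]
    exact (v.intValuation_le_pow_iff_mem x k).2 h
  have h2 := (WithZeroMulInt.toNNReal_strictMono
    (HeightOneSpectrum.one_lt_absNorm_nnreal v)).monotone h1
  have h3 : WithZeroMulInt.toNNReal (HeightOneSpectrum.absNorm_ne_zero v)
      (WithZero.exp (-(k : ℤ))) = ((Ideal.absNorm v.asIdeal : ℕ) : NNReal) ^ (-(k : ℤ)) := by
    rw [WithZeroMulInt.toNNReal_neg_apply _ (WithZero.exp_ne_zero)]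
    rfl
  rw [h3] at h2
  rw [fin_mk]
  have h4 : ((WithZeroMulInt.toNNReal (HeightOneSpectrum.absNorm_ne_zero v)
      (v.valuation K (x : K)) : NNReal) : ℝ) ≤ (Ideal.absNorm v.asIdeal : ℝ) ^ (-(k : ℤ)) := by
    exact_mod_cast h2
  calc _ ≤ (Ideal.absNorm v.asIdeal : ℝ) ^ (-(k : ℤ)) * (Ideal.absNorm v.asIdeal : ℝ) ^ k :=
        mul_le_mul_of_nonneg_right h4 (by positivity)
    _ = 1 := by
        rw [zpow_neg, zpow_natCast]
        exact inv_mul_cancel₀ (by positivity)

theorem intg (A : K[X]) : ∃ (a : 𝓞 K) (A1 : (𝓞 K)[X]), a ≠ 0 ∧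
    A1.map (algebraMap (𝓞 K) K) = C (a : K) * A := by
  obtain ⟨d, hd, hd1⟩ :=
    IsLocalization.integerNormalization_spec (nonZeroDivisors (𝓞 K)) A
  refine ⟨d, IsLocalization.integerNormalization (nonZeroDivisors (𝓞 K)) A,
    nonZeroDivisors.ne_zero hd, ?_⟩
  rw [hd1]
  ext i
  simp [Algebra.smul_def]

theorem bez (G : K[X]) (hsq : Squarefree G) : ∃ (d δ : 𝓞 K) (G1 A B : (𝓞 K)[X]), d ≠ 0 ∧ δ ≠ 0 ∧
    G1.map (algebraMap (𝓞 K) K) = C (d : K) * G ∧ A * G1 + B * derivative G1 = C δ := by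
  obtain ⟨d, G1, hd, hG1⟩ := intg G
  have hsep : G.Separable := PerfectField.separable_iff_squarefree.2 hsq
  obtain ⟨A, B, hAB⟩ := hsep
  obtain ⟨a, A1, ha, hA1⟩ := intg A
  obtain ⟨b, B1, hb, hB1⟩ := intg B
  have hdK : (d : K) ≠ 0 := by exact_mod_cast hd
  refine ⟨d, a * b * d, G1, C b * A1, C a * B1, hd, mul_ne_zero (mul_ne_zero ha hb) hd, hG1, ?_⟩
  have hinj : Function.Injective (Polynomial.map (algebraMap (𝓞 K) K)) :=
    Polynomial.map_injective _ (FaithfulSMul.algebraMap_injective (𝓞 K) K)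
  apply hinj
  have e1 : (derivative G1).map (algebraMap (𝓞 K) K) = C (d : K) * derivative G := by
    rw [← derivative_map, hG1, derivative_C_mul]
  rw [Polynomial.map_add, Polynomial.map_mul, Polynomial.map_mul, Polynomial.map_mul,
    Polynomial.map_mul, Polynomial.map_C, Polynomial.map_C, Polynomial.map_C, hG1, hA1, hB1, e1]
  have e2 : C (algebraMap (𝓞 K) K b) * (C (a : K) * A) * (C (d : K) * G) +
      C (algebraMap (𝓞 K) K a) * (C (b : K) * B) * (C (d : K) * derivative G) =
      C (a : K) * C (b : K) * C (d : K) * (A * G + B * derivative G) := by ring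
  rw [e2, hAB, mul_one, map_mul, map_mul, map_mul, map_mul]

theorem schur (G : (𝓞 K)[X]) (hG : 1 ≤ G.natDegree) (m : 𝓞 K) (hm : m ≠ 0) :
    ∃ (v : HeightOneSpectrum (𝓞 K)) (a : 𝓞 K), m ∉ v.asIdeal ∧ G.eval a ∈ v.asIdeal := by
  have hG0 : G ≠ 0 := by
    rintro rfl
    simp at hG
  obtain ⟨t0, ht0⟩ : ∃ t : 𝓞 K, G.eval t ≠ 0 := by
    by_contra hcon
    push Not at hcon
    exact hG0 (Polynomial.funext fun r => by rw [hcon r, eval_zero])
  obtain ⟨c, hc⟩ : ∃ c, c = G.eval t0 := ⟨_, rfl⟩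
  rw [← hc] at ht0
  have hq : ∀ t : ℕ, ∃ h : 𝓞 K, G.eval (t0 + c * m * t) = c * (1 + m * h) := by
    intro t
    obtain ⟨z, hz⟩ := sub_dvd_eval_sub (t0 + c * m * t) t0 G
    refine ⟨t * z, ?_⟩
    rw [← hc] at hz
    linear_combination hz
  choose h hh using hq
  -- the values are large at all infinite places
  have hlarge : ∀ w : InfinitePlace K, ∀ᶠ t : ℕ in Filter.atTop,
      1 < w ((1 + m * h t : 𝓞 K) : K) := by
    intro w
    have hdeg : 0 < (G.map ((w.embedding).comp (algebraMap (𝓞 K) K))).degree := by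
      rw [Polynomial.degree_map_eq_of_injective]
      · exact Polynomial.natDegree_pos_iff_degree_pos.1 hG
      · exact (RingHom.injective w.embedding).comp (FaithfulSMul.algebraMap_injective (𝓞 K) K)
    have hcm : w.embedding ((c * m : 𝓞 K) : K) ≠ 0 := by
      rw [Ne, map_eq_zero]
      exact_mod_cast mul_ne_zero ht0 hm
    have hz : Filter.Tendsto (fun t : ℕ => ‖w.embedding ((t0 + c * m * t : 𝓞 K) : K)‖)
        Filter.atTop Filter.atTop := by
      have e : ∀ t : ℕ, w.embedding ((t0 + c * m * t : 𝓞 K) : K) =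
          w.embedding (t0 : K) + w.embedding ((c * m : 𝓞 K) : K) * t := by
        intro t
        push_cast
        rw [map_add, map_mul]
        simp
      simp_rw [e]
      refine Filter.tendsto_atTop_mono (f := fun t : ℕ =>
        ‖w.embedding ((c * m : 𝓞 K) : K)‖ * t - ‖w.embedding (t0 : K)‖) ?_ ?_
      · intro t
        have h1 := norm_sub_le (w.embedding (t0 : K) + w.embedding ((c * m : 𝓞 K) : K) * t)
          (w.embedding (t0 : K))
        rw [add_sub_cancel_left, norm_mul, Complex.norm_natCast] at h1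
        linarith
      · refine Filter.tendsto_atTop_add_const_right _ _ ?_
        exact Filter.Tendsto.const_mul_atTop (norm_pos_iff.2 hcm) tendsto_natCast_atTop_atTop
    have h2 := Polynomial.tendsto_norm_atTop _ hdeg hz
    have h3 := h2.eventually (Filter.eventually_gt_atTop (w (c : K)))
    refine h3.mono fun t ht => ?_
    have e2 : (G.map ((w.embedding).comp (algebraMap (𝓞 K) K))).eval
        (w.embedding ((t0 + c * m * t : 𝓞 K) : K)) =
        w.embedding ((G.eval (t0 + c * m * t) : 𝓞 K) : K) := by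
      have := Polynomial.eval_map_apply (p := G) (f := (w.embedding).comp (algebraMap (𝓞 K) K))
        (t0 + c * m * t)
      simpa using this
    rw [e2, InfinitePlace.norm_embedding_eq, hh t] at ht
    push_cast at ht ⊢
    rw [map_mul] at ht
    have hcpos : 0 < w (c : K) := InfinitePlace.pos_iff.2 (by exact_mod_cast ht0)
    by_contra hcon
    rw [not_lt] at hcon
    have := mul_le_mul_of_nonneg_left hcon hcpos.le
    rw [mul_one] at this
    exact absurd ht (not_lt.2 this)
  obtain ⟨t, ht⟩ := (Filter.eventually_all.2 hlarge).exists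
  obtain ⟨w0⟩ : Nonempty (InfinitePlace K) := inferInstance
  obtain ⟨x, hx⟩ : ∃ x, x = 1 + m * h t := ⟨_, rfl⟩
  rw [← hx] at ht
  have hxu : ¬ IsUnit x := by
    rintro ⟨u, hu⟩
    have h1 : ∀ w : InfinitePlace K, w ((u⁻¹ : (𝓞 K)ˣ) : K) < 1 := by
      intro w
      have e : w ((u : 𝓞 K) : K) * w (((u⁻¹ : (𝓞 K)ˣ) : 𝓞 K) : K) = 1 := by
        rw [← map_mul, ← map_one w]
        congr 1
        exact_mod_cast congrArg (algebraMap (𝓞 K) K) (Units.mul_inv u)
      have hlt := ht w
      rw [← hu] at hlt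
      by_contra hcon
      rw [not_lt] at hcon
      have : 1 < w ((u : 𝓞 K) : K) * w (((u⁻¹ : (𝓞 K)ˣ) : 𝓞 K) : K) := by
        calc (1 : ℝ) < w ((u : 𝓞 K) : K) := hlt
          _ = w ((u : 𝓞 K) : K) * 1 := (mul_one _).symm
          _ ≤ _ := mul_le_mul_of_nonneg_left hcon (by positivity)
      rw [e] at this
      exact absurd this (lt_irrefl _)
    exact absurd (InfinitePlace.one_le_of_lt_one (w := w0) (a := ((u⁻¹ : (𝓞 K)ˣ) : 𝓞 K))
      (Units.ne_zero _) (fun z _ => h1 z)) (not_le.2 (h1 w0))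
  have hx0 : x ≠ 0 := by
    rintro rfl
    have := ht w0
    simp at this
    linarith
  obtain ⟨P, hP, hxP⟩ := exists_max_ideal_of_mem_nonunits hxu
  have hPb : P ≠ ⊥ := by
    rintro rfl
    exact hx0 (by simpa using hxP)
  refine ⟨⟨P, hP.isPrime, hPb⟩, t0 + c * m * t, ?_, ?_⟩
  · intro hmP
    have hmP' : m ∈ P := hmP
    apply hP.ne_top
    rw [Ideal.eq_top_iff_one]
    have e : (1 : 𝓞 K) = x - m * h t := by rw [hx]; ring
    rw [e]
    exact P.sub_mem hxP (P.mul_mem_right _ hmP')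
  · show G.eval (t0 + c * m * t) ∈ P
    rw [hh t, ← hx]
    exact P.mul_mem_left _ hxP

theorem newton (v : HeightOneSpectrum (𝓞 K)) (G : (𝓞 K)[X]) (a₀ : 𝓞 K)
    (h0 : G.eval a₀ ∈ v.asIdeal) (h1 : (derivative G).eval a₀ ∉ v.asIdeal) (k : ℕ) :
    ∃ a : 𝓞 K, a - a₀ ∈ v.asIdeal ∧ G.eval a ∈ v.asIdeal ^ (k + 1) := by
  have hmax : v.asIdeal.IsMaximal := v.isPrime.isMaximal v.ne_bot
  induction k with
  | zero => exact ⟨a₀, by rw [sub_self]; exact Ideal.zero_mem _, by simpa using h0⟩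
  | succ k ih =>
    obtain ⟨a, ha, hGa⟩ := ih
    have hd : (derivative G).eval a ∉ v.asIdeal := by
      intro hcon
      apply h1
      obtain ⟨z, hz⟩ := sub_dvd_eval_sub a a₀ (derivative G)
      have e : (derivative G).eval a₀ = (derivative G).eval a - (a - a₀) * z := by
        rw [← hz]; ring
      rw [e]
      exact Ideal.sub_mem _ hcon (Ideal.mul_mem_right _ _ ha)
    obtain ⟨b, i, hi, hb⟩ := hmax.exists_inv hd
    obtain ⟨c, hc⟩ := Polynomial.binomExpansion G a (-(b * G.eval a))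
    refine ⟨a + -(b * G.eval a), ?_, ?_⟩
    · have e : a + -(b * G.eval a) - a₀ = (a - a₀) - b * G.eval a := by ring
      rw [e]
      refine Ideal.sub_mem _ ha (Ideal.mul_mem_left _ _ ?_)
      exact Ideal.pow_le_self (Nat.succ_ne_zero k) hGa
    · have e : G.eval (a + -(b * G.eval a)) = G.eval a * i + c * b ^ 2 * (G.eval a * G.eval a) := by
        rw [hc]
        linear_combination (-G.eval a) * hb
      rw [e]
      refine Ideal.add_mem _ ?_ (Ideal.mul_mem_left _ _ ?_)
      · rw [pow_succ]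
        exact Ideal.mul_mem_mul hGa hi
      · have h2 : G.eval a * G.eval a ∈ v.asIdeal ^ (k + 1) * v.asIdeal ^ (k + 1) :=
          Ideal.mul_mem_mul hGa hGa
        rw [← pow_add] at h2
        exact Ideal.pow_le_pow_right (by omega) h2

theorem main : S_HENS := by
  intro K _ _ G hG hsq
  obtain ⟨d, δ, G1, A, B, hd, hδ, hG1, hAB⟩ := bez G hsq
  have hdK : (d : K) ≠ 0 := by exact_mod_cast hd
  have hdeg : 1 ≤ G1.natDegree := by
    have e : (G1.map (algebraMap (𝓞 K) K)).natDegree = G1.natDegree :=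
      Polynomial.natDegree_map_eq_of_injective (FaithfulSMul.algebraMap_injective (𝓞 K) K) G1
    rw [← e, hG1, Polynomial.natDegree_C_mul hdK]
    exact hG
  obtain ⟨v, a₀, hm, ha₀⟩ := schur G1 hdeg (d * δ) (mul_ne_zero hd hδ)
  have hdv : d ∉ v.asIdeal := fun h => hm (Ideal.mul_mem_right _ _ h)
  have hδv : δ ∉ v.asIdeal := fun h => hm (Ideal.mul_mem_left _ _ h)
  have hder : (derivative G1).eval a₀ ∉ v.asIdeal := by
    intro hcon
    apply hδv
    have e := congrArg (Polynomial.eval a₀) hAB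
    rw [eval_add, eval_mul, eval_mul, eval_C] at e
    rw [← e]
    exact Ideal.add_mem _ (Ideal.mul_mem_left _ _ ha₀) (Ideal.mul_mem_left _ _ hcon)
  have hvd : v.valuation K (d : K) = 1 := by
    rw [HeightOneSpectrum.valuation_of_algebraMap]
    exact HeightOneSpectrum.intValuation_eq_one_iff.2 hdv
  refine ⟨v, ?_, fun k => ?_⟩
  · rintro ⟨i, hi⟩
    have e : (algebraMap (𝓞 K) K) (G1.coeff i) = (d : K) * G.coeff i := by
      rw [← Polynomial.coeff_map, hG1, Polynomial.coeff_C_mul]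
    have h1 : v.valuation K ((algebraMap (𝓞 K) K) (G1.coeff i)) ≤ 1 :=
      HeightOneSpectrum.valuation_le_one v _
    rw [e, map_mul, hvd, one_mul] at h1
    exact absurd hi (not_lt.2 h1)
  · obtain ⟨a, -, hGa⟩ := newton v G1 a₀ ha₀ hder k
    refine ⟨a, ?_⟩
    have h1 := mk_le v (G1.eval a) k (Ideal.pow_le_pow_right (Nat.le_succ k) hGa)
    have e : ((G1.eval a : 𝓞 K) : K) = (d : K) * G.eval (a : K) := by
      have := Polynomial.eval_map_apply (p := G1) (f := algebraMap (𝓞 K) K) a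
      rw [hG1, eval_mul, eval_C] at this
      exact this.symm
    have e2 : FinitePlace.mk v (d : K) = 1 := by
      have := fin_mk v (d : K)
      rw [hvd, map_one] at this
      simpa using this
    rw [e, map_mul, e2, one_mul] at h1
    exact h1

end HENS

end Pool.Agent.Helper8.RX
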