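import Pool.Agent.Helper8.RX.Stm

set_option autoImplicit false

/-! Module THUE (helper40). -/

namespace Pool.Agent.Helper8.RX

open NumberField IsDedekindDomain Height Polynomial Pool.Agent.Q290.NF Pool.Agent.Helper8.RC

theorem thue : S_THUE := by
  classical
  intro K _ _
  set ι := Module.Free.ChooseBasisIndex ℤ (𝓞 K) with hι
  set b : Module.Basis ι ℤ (𝓞 K) := RingOfIntegers.basis K with hb
  set d : ℕ := Module.finrank ℚ K with hd
  have hd0 : 0 < d := Module.finrank_pos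
  have hcard : Fintype.card ι = d := by
    rw [hd, ← RingOfIntegers.rank K]
    exact (Module.finrank_eq_card_chooseBasisIndex ℤ (𝓞 K)).symm
  set c : ℝ := 1 + ∑ w : InfinitePlace K, ∑ i, w (b i : K) with hc
  have hc0 : ∀ w : InfinitePlace K, 0 ≤ ∑ i, w (b i : K) := fun w =>
    Finset.sum_nonneg fun i _ => apply_nonneg w _
  have hcw : ∀ w : InfinitePlace K, ∑ i, w (b i : K) ≤ c := by
    intro w
    have h1 := Finset.single_le_sum (f := fun w : InfinitePlace K => ∑ i, w (b i : K))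
      (fun w _ => hc0 w) (Finset.mem_univ w)
    have h2 : ∑ i, w (b i : K) ≤ ∑ w : InfinitePlace K, ∑ i, w (b i : K) := h1
    linarith
  have hc1 : 1 ≤ c := by
    have h1 : 0 ≤ ∑ w : InfinitePlace K, ∑ i, w (b i : K) := Finset.sum_nonneg fun w _ => hc0 w
    linarith
  refine ⟨c, hc1, fun I hI α => ?_⟩
  obtain ⟨N, hN⟩ : ∃ N : ℕ, N = Ideal.absNorm I := ⟨_, rfl⟩
  have hN0 : 0 < N := by
    rw [hN, Nat.pos_iff_ne_zero, Ne, Ideal.absNorm_eq_zero_iff]
    exact hI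
  obtain ⟨r, hr⟩ : ∃ r : ℝ, r = (N : ℝ) ^ (1 / (2 * (d : ℝ))) := ⟨_, rfl⟩
  have hr0 : 0 ≤ r := by rw [hr]; positivity
  have hdR : (0 : ℝ) < d := by exact_mod_cast hd0
  have hrN : r ^ (2 * d) = N := by
    rw [hr, ← Real.rpow_natCast, ← Real.rpow_mul (Nat.cast_nonneg _)]
    push_cast
    rw [one_div, inv_mul_cancel₀ (by positivity), Real.rpow_one]
  obtain ⟨A, hA⟩ : ∃ A : ℕ, A = ⌊r⌋₊ := ⟨_, rfl⟩
  have hAr : (A : ℝ) ≤ r := by rw [hA]; exact Nat.floor_le hr0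
  have hrA : r < A + 1 := by rw [hA]; exact Nat.lt_floor_add_one r
  have hbig : N < (A + 1) ^ (2 * d) := by
    have h1 : r ^ (2 * d) < ((A : ℝ) + 1) ^ (2 * d) :=
      pow_lt_pow_left₀ hrA hr0 (by omega)
    rw [hrN] at h1
    exact_mod_cast h1
  -- the quotient
  have hquot : Nat.card (𝓞 K ⧸ I) = N := by
    rw [hN, Ideal.absNorm_apply]
    rfl
  have hfin : Finite (𝓞 K ⧸ I) := Nat.finite_of_card_ne_zero (by rw [hquot]; omega)
  have hft : Fintype (𝓞 K ⧸ I) := Fintype.ofFinite _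
  let e : (ι → Fin (A + 1)) → 𝓞 K := fun x => ∑ i, ((x i : ℕ) : ℤ) • b i
  let Φ : (ι → Fin (A + 1)) × (ι → Fin (A + 1)) → 𝓞 K ⧸ I := fun p =>
    Ideal.Quotient.mk I (e p.1 - α * e p.2)
  have hlt : Fintype.card (𝓞 K ⧸ I) < Fintype.card ((ι → Fin (A + 1)) × (ι → Fin (A + 1))) := by
    rw [← Nat.card_eq_fintype_card, hquot, Fintype.card_prod, Fintype.card_fun, Fintype.card_fin,
      hcard, ← pow_add, ← two_mul]
    exact hbig
  obtain ⟨p, p', hpp, hΦ⟩ := Fintype.exists_ne_map_eq_of_card_lt Φ hlt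
  have hsub : ∀ x x' : ι → Fin (A + 1), e x - e x' = ∑ i, (((x i : ℕ) : ℤ) - ((x' i : ℕ) : ℤ)) • b i := by
    intro x x'
    show ∑ i, ((x i : ℕ) : ℤ) • b i - ∑ i, ((x' i : ℕ) : ℤ) • b i = _
    rw [← Finset.sum_sub_distrib]
    exact Finset.sum_congr rfl fun i _ => (sub_smul _ _ _).symm
  have hinj : ∀ x x' : ι → Fin (A + 1), e x - e x' = 0 → x = x' := by
    intro x x' h
    rw [hsub] at h
    have h1 := Fintype.linearIndependent_iff.1 b.linearIndependent _ h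
    funext i
    have h2 := h1 i
    apply Fin.ext
    omega
  have hbd : ∀ (x x' : ι → Fin (A + 1)) (w : InfinitePlace K), w ((e x - e x' : 𝓞 K) : K) ≤ c * r := by
    intro x x' w
    rw [hsub]
    have h1 : ((∑ i, (((x i : ℕ) : ℤ) - ((x' i : ℕ) : ℤ)) • b i : 𝓞 K) : K) =
        ∑ i, (((((x i : ℕ) : ℤ) - ((x' i : ℕ) : ℤ) : ℤ)) : K) * (b i : K) := by
      show algebraMap (𝓞 K) K (∑ i, (((x i : ℕ) : ℤ) - ((x' i : ℕ) : ℤ)) • b i) = _
      rw [map_sum]
      refine Finset.sum_congr rfl fun i _ => ?_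
      rw [zsmul_eq_mul, map_mul, map_intCast]
    rw [h1]
    have h2 : w (∑ i, (((((x i : ℕ) : ℤ) - ((x' i : ℕ) : ℤ) : ℤ)) : K) * (b i : K)) ≤
        ∑ i, w ((((((x i : ℕ) : ℤ) - ((x' i : ℕ) : ℤ) : ℤ)) : K) * (b i : K)) := by
      have := w.1.sum_le Finset.univ
        (fun i => (((((x i : ℕ) : ℤ) - ((x' i : ℕ) : ℤ) : ℤ)) : K) * (b i : K))
      exact this
    refine h2.trans ?_
    have h3 : ∀ i, w ((((((x i : ℕ) : ℤ) - ((x' i : ℕ) : ℤ) : ℤ)) : K) * (b i : K)) ≤ r * w (b i : K) := by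
      intro i
      rw [map_mul]
      refine mul_le_mul_of_nonneg_right ?_ (apply_nonneg w _)
      have h4 : ∀ a : ℤ, w (a : K) = |(a : ℝ)| := by
        intro a
        rcases Int.eq_nat_or_neg a with ⟨m, rfl | rfl⟩
        · rw [Int.cast_natCast, InfinitePlace.map_natCast]
          simp
        · rw [Int.cast_neg, Int.cast_natCast, InfinitePlace.coe_apply, AbsoluteValue.map_neg,
            ← InfinitePlace.coe_apply, InfinitePlace.map_natCast]
          simp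
      rw [h4]
      have hx := (x i).is_lt
      have hx' := (x' i).is_lt
      have h5 : |(((x i : ℕ) : ℤ) - ((x' i : ℕ) : ℤ))| ≤ (A : ℤ) := by
        rw [abs_le]
        omega
      have h6 : |((((x i : ℕ) : ℤ) - ((x' i : ℕ) : ℤ) : ℤ) : ℝ)| ≤ A := by exact_mod_cast h5
      exact h6.trans hAr
    refine (Finset.sum_le_sum fun i _ => h3 i).trans ?_
    rw [← Finset.mul_sum, mul_comm]
    exact mul_le_mul_of_nonneg_right (hcw w) hr0
  refine ⟨e p.1 - e p'.1, e p.2 - e p'.2, ?_, ?_, ?_⟩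
  · rintro ⟨h1, h2⟩
    exact hpp (Prod.ext (hinj _ _ h1) (hinj _ _ h2))
  · have h1 : e p.1 - α * e p.2 - (e p'.1 - α * e p'.2) ∈ I := Ideal.Quotient.eq.1 hΦ
    have h2 : e p.1 - e p'.1 - α * (e p.2 - e p'.2) = e p.1 - α * e p.2 - (e p'.1 - α * e p'.2) := by
      ring
    rw [h2]
    exact h1
  · intro w
    rw [← hN, ← hr]
    exact ⟨hbd _ _ w, hbd _ _ w⟩

end Pool.Agent.Helper8.RX
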