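import Pool.Agent.Helper8.RX.Stm
import Pool.Agent.Helper8.RX.Hens
import Pool.Agent.Helper8.RX.Gain
import Pool.Agent.Helper8.RX.Thue

/-!
# Good approximations at one prime
-/

set_option autoImplicit false

namespace Pool.Agent.Helper8.RX

open NumberField IsDedekindDomain Height Polynomial Pool.Agent.Q290.NF Pool.Agent.Helper8.RC
  Pool.Agent.Q245.Vk

variable {K : Type} [Field K] [NumberField K]

theorem finsum_le_one {f : FinitePlace K → ℝ} (hf : (Function.support f).Finite)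
    (h : ∀ v, f v ≤ 0) (v₀ : FinitePlace K) : ∑ᶠ v, f v ≤ f v₀ := by
  classical
  rw [finsum_eq_sum_of_support_subset f (s := insert v₀ hf.toFinset) (by
    intro v hv
    rw [Finset.coe_insert]
    right
    simpa using hv)]
  rw [← Finset.add_sum_erase _ _ (Finset.mem_insert_self v₀ hf.toFinset)]
  have := Finset.sum_nonpos (s := (insert v₀ hf.toFinset).erase v₀) (f := f) (fun v _ => h v)
  linarith

theorem int_le_one (v : FinitePlace K) (x : 𝓞 K) : v (x : K) ≤ 1 := by
  obtain ⟨w, rfl⟩ : ∃ w, v = FinitePlace.mk w := ⟨_, (FinitePlace.mk_maximalIdeal v).symm⟩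
  exact mk_le_one.2 (w.valuation_le_one x)

theorem inf_sum_le {R : ℝ} (hR : 1 ≤ R) {f : InfinitePlace K → ℝ}
    (hf : ∀ w, 0 ≤ f w) (hfR : ∀ w, f w ≤ R) :
    ∑ w : InfinitePlace K, (w.mult : ℝ) * Real.log (f w) ≤ Module.finrank ℚ K * Real.log R := by
  rw [← sum_mult_log]
  refine Finset.sum_le_sum fun w _ => ?_
  refine mul_le_mul_of_nonneg_left ?_ (Nat.cast_nonneg _)
  rcases (hf w).lt_or_eq with h | h
  · exact Real.log_le_log h (hfR w)
  · rw [← h, Real.log_zero]
    exact Real.log_nonneg hR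

theorem int_ge {R : ℝ} (hR : 1 ≤ R) {x : 𝓞 K} (hx : x ≠ 0)
    (hxR : ∀ w : InfinitePlace K, w (x : K) ≤ R) (v₀ : FinitePlace K) :
    -(Module.finrank ℚ K * Real.log R) ≤ Real.log (v₀ (x : K)) := by
  have hx0 : (x : K) ≠ 0 := by exact_mod_cast hx
  have h1 := sum_log hx0
  have h2 := inf_sum_le (K := K) hR (f := fun w => w (x : K)) (fun w => apply_nonneg w _) hxR
  have h3 := finsum_le_one (f := fun v : FinitePlace K => Real.log (v (x : K)))
    (log_support hx0) (fun v => Real.log_nonpos (apply_nonneg _ _) (int_le_one v x)) v₀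
  linarith

theorem ht_le {R : ℝ} (hR : 1 ≤ R) {u t : 𝓞 K} (ht : t ≠ 0)
    (huR : ∀ w : InfinitePlace K, w (u : K) ≤ R) (htR : ∀ w : InfinitePlace K, w (t : K) ≤ R)
    (v₀ : FinitePlace K) :
    logHeight₁ ((u : K) / (t : K)) ≤ Module.finrank ℚ K * Real.log R +
      Real.log (max (v₀ (u : K)) (v₀ (t : K))) := by
  have ht0 : (t : K) ≠ 0 := by exact_mod_cast ht
  rw [height2 (u : K) ht0]
  have h2 := inf_sum_le (K := K) hR (f := fun w => max (w (u : K)) (w (t : K)))
    (fun w => le_max_of_le_left (apply_nonneg w _)) (fun w => max_le (huR w) (htR w))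
  have h3 := finsum_le_one (f := fun v : FinitePlace K => Real.log (max (v (u : K)) (v (t : K))))
    (max2_support (u : K) ht0) (fun v => Real.log_nonpos (le_max_of_le_left (apply_nonneg _ _))
      (max_le (int_le_one v u) (int_le_one v t))) v₀
  linarith

/-- `|G(s) - G(a)| ≤ |s - a|` -/
theorem lip {G : K[X]} {v : HeightOneSpectrum (𝓞 K)} (hv : v ∉ badP G) {s a : K}
    (hs : v.valuation K s ≤ 1) (ha : v.valuation K a ≤ 1) :
    FinitePlace.mk v (G.eval s - G.eval a) ≤ FinitePlace.mk v (s - a) := by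
  obtain ⟨q, hq1, hq2⟩ : ∃ q : K, G.eval s - G.eval a = (s - a) * q ∧ v.valuation K q ≤ 1 := by
    refine ⟨∑ i ∈ Finset.range (G.natDegree + 1), G.coeff i *
      ∑ j ∈ Finset.range i, s ^ j * a ^ (i - 1 - j), ?_, ?_⟩
    · rw [eval_eq_sum_range, eval_eq_sum_range, ← Finset.sum_sub_distrib, Finset.mul_sum]
      refine Finset.sum_congr rfl fun i _ => ?_
      have := (Commute.all s a).geom_sum₂_mul i
      linear_combination (-G.coeff i) * this
    · refine Valuation.map_sum_le _ fun i _ => ?_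
      rw [map_mul]
      have h1 : v.valuation K (G.coeff i) ≤ 1 := by
        by_contra hcon
        exact hv ⟨i, not_le.1 hcon⟩
      refine mul_le_one' h1 (Valuation.map_sum_le _ fun j _ => ?_)
      rw [map_mul, map_pow, map_pow]
      exact mul_le_one' (pow_le_one₀ zero_le hs) (pow_le_one₀ zero_le ha)
  rw [hq1, map_mul]
  exact mul_le_of_le_one_right (apply_nonneg _ _) (mk_le_one.2 hq2)

theorem app (hTHUE : S_THUE) (hHENS : S_HENS) (hGAIN : S_GAIN) : S_APP := by
  classical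
  intro K _ _ G hG1 hGs hGr
  obtain ⟨v₀, hbad, hroot⟩ := hHENS K G hG1 hGs
  obtain ⟨c, hc1, hthue⟩ := hTHUE K
  obtain ⟨d, hd⟩ : ∃ d : ℝ, d = Module.finrank ℚ K := ⟨_, rfl⟩
  have hd0 : 0 < d := by
    rw [hd]
    exact_mod_cast Module.finrank_pos (R := ℚ) (M := K)
  obtain ⟨N, hN⟩ : ∃ N : ℝ, N = (Ideal.absNorm v₀.asIdeal : ℝ) := ⟨_, rfl⟩
  have hN1 : 1 < N := by
    rw [hN]
    exact_mod_cast HeightOneSpectrum.one_lt_absNorm v₀
  have hN0 : 0 < N := by linarith
  have hlN : 0 < Real.log N := Real.log_pos hN1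
  have hlc : 0 ≤ Real.log c := Real.log_nonneg hc1
  obtain ⟨C3, h3⟩ := poly_height_le (K := K) (P := G) le_rfl
  obtain ⟨m, hm⟩ : ∃ m : ℝ, m = G.natDegree := ⟨_, rfl⟩
  have hm1 : 1 ≤ m := by
    rw [hm]
    exact_mod_cast hG1
  rw [← hm] at h3
  obtain ⟨L, hL⟩ : ∃ L : FinitePlace K, L = FinitePlace.mk v₀ := ⟨_, rfl⟩
  refine ⟨v₀, 2 * (d * Real.log c), fun B => ?_⟩
  -- the choice of `k`
  obtain ⟨k, hk⟩ : ∃ k : ℕ, max (d * Real.log c + 1) (m * B + C3 + ell v₀ + d * Real.log c) /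
      (Real.log N / 2) ≤ k := exists_nat_ge _
  rw [div_le_iff₀ (by positivity)] at hk
  have hk1 := (le_max_left _ _).trans hk
  have hk2 := (le_max_right _ _).trans hk
  obtain ⟨α, hα⟩ := hroot k
  have hI0 : v₀.asIdeal ^ k ≠ ⊥ := pow_ne_zero k v₀.ne_bot
  obtain ⟨u, t, hut, hI, hw⟩ := hthue (v₀.asIdeal ^ k) hI0 α
  obtain ⟨R, hR⟩ : ∃ R : ℝ, R = c * (Ideal.absNorm (v₀.asIdeal ^ k) : ℝ) ^
      (1 / (2 * (Module.finrank ℚ K : ℝ))) := ⟨_, rfl⟩
  rw [← hR] at hw
  have hNk : (Ideal.absNorm (v₀.asIdeal ^ k) : ℝ) = N ^ k := by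
    rw [map_pow, hN]
    push_cast
    rfl
  have hlR : d * Real.log R = d * Real.log c + k * Real.log N / 2 := by
    rw [hR, hNk, Real.log_mul (by linarith) (by positivity), Real.log_rpow (by positivity),
      Real.log_pow, ← hd]
    field_simp
  have hR1 : 1 ≤ R := by
    rw [hR, hNk]
    have : (1 : ℝ) ≤ (N ^ k) ^ (1 / (2 * (Module.finrank ℚ K : ℝ))) :=
      Real.one_le_rpow (one_le_pow₀ hN1.le) (by positivity)
    exact one_le_mul_of_one_le_of_one_le hc1 this
  have hkey : L ((u : K) - (α : K) * (t : K)) * N ^ k ≤ 1 := by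
    have := HENS.mk_le v₀ (u - α * t) k hI
    rw [hL, hN]
    simpa using this
  obtain ⟨ρ, hρ⟩ : ∃ ρ : ℝ, ρ = (N ^ k)⁻¹ := ⟨_, rfl⟩
  have hNk0 : 0 < N ^ k := by positivity
  have hρ0 : 0 < ρ := by rw [hρ]; positivity
  have hlρ : Real.log ρ = -(k * Real.log N) := by rw [hρ, Real.log_inv, Real.log_pow]
  have hkey1 : L ((u : K) - (α : K) * (t : K)) ≤ ρ := by
    rw [hρ, ← one_div, le_div_iff₀ hNk0]
    exact hkey
  have hkey2 : L (G.eval (α : K)) ≤ ρ := by
    rw [hρ, ← one_div, le_div_iff₀ hNk0, hL, hN]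
    exact hα
  have hu1 : L (u : K) ≤ 1 := int_le_one L u
  have ht1 : L (t : K) ≤ 1 := int_le_one L t
  have hα1 : L (α : K) ≤ 1 := int_le_one L α
  have hu0 : 0 ≤ L (u : K) := apply_nonneg _ _
  have ht0 : 0 ≤ L (t : K) := apply_nonneg _ _
  obtain ⟨M, hM⟩ : ∃ M : ℝ, M = max (L (u : K)) (L (t : K)) := ⟨_, rfl⟩
  have hM1 : M ≤ 1 := by rw [hM]; exact max_le hu1 ht1
  -- `M` is large
  have hMx : ∀ x : 𝓞 K, x ≠ 0 → (∀ w : InfinitePlace K, w (x : K) ≤ R) → L (x : K) ≤ M →
      0 < M ∧ -(d * Real.log R) ≤ Real.log M := by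
    intro x hx hxR hxM
    have hx0 : (x : K) ≠ 0 := by exact_mod_cast hx
    have h1 : 0 < L (x : K) := L.1.pos hx0
    have h2 := int_ge hR1 hx hxR L
    rw [← hd] at h2
    exact ⟨h1.trans_le hxM, h2.trans (Real.log_le_log h1 hxM)⟩
  have hMl : 0 < M ∧ -(d * Real.log R) ≤ Real.log M := by
    by_cases hu : u = 0
    · have ht : t ≠ 0 := fun h => hut ⟨hu, h⟩
      exact hMx t ht (fun w => (hw w).2) (by rw [hM]; exact le_max_right _ _)
    · exact hMx u hu (fun w => (hw w).1) (by rw [hM]; exact le_max_left _ _)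
  obtain ⟨hM0, hMl⟩ := hMl
  have hρM : ρ < M := by
    rw [← Real.log_lt_log_iff hρ0 hM0, hlρ]
    linarith
  have hLt : L (t : K) = M := by
    refine le_antisymm (by rw [hM]; exact le_max_right _ _) ?_
    by_contra hcon
    push Not at hcon
    have h1 : L (u : K) = M := by
      rw [hM]
      rw [hM] at hcon
      rcases max_choice (L (u : K)) (L (t : K)) with h | h
      · exact h.symm
      · rw [h] at hcon
        exact absurd hcon (lt_irrefl _)
    have h2 : L ((u : K) - (α : K) * (t : K) + (α : K) * (t : K)) ≤ max ρ (L (t : K)) := by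
      refine fin_add L _ _ (hkey1.trans (le_max_left _ _)) ?_
      rw [map_mul]
      exact (mul_le_of_le_one_left ht0 hα1).trans (le_max_right _ _)
    rw [sub_add_cancel, h1] at h2
    exact absurd h2 (not_le.2 (max_lt hρM hcon))
  have htne : t ≠ 0 := by
    rintro rfl
    simp only [map_zero] at hLt
    linarith
  have htK : (t : K) ≠ 0 := by exact_mod_cast htne
  obtain ⟨s, hs⟩ : ∃ s : K, s = (u : K) / (t : K) := ⟨_, rfl⟩
  have hLu : L (u : K) ≤ M := by rw [hM]; exact le_max_left _ _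
  have hs1 : L s ≤ 1 := by
    rw [hs, map_div₀, hLt]
    exact div_le_one_of_le₀ hLu hM0.le
  have hsα : L (s - (α : K)) ≤ ρ / M := by
    have : s - (α : K) = ((u : K) - (α : K) * (t : K)) / (t : K) := by
      rw [hs]
      field_simp
    rw [this, map_div₀, hLt]
    exact div_le_div_of_nonneg_right hkey1 hM0.le
  have hGs1 : L (G.eval s) ≤ ρ / M := by
    have h1 : L (G.eval s - G.eval (α : K)) ≤ ρ / M := by
      have := lip hbad (s := s) (a := (α : K)) (mk_le_one.1 (by rw [← hL]; exact hs1))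
        (mk_le_one.1 (by rw [← hL]; exact hα1))
      rw [← hL] at this
      exact this.trans hsα
    have h2 : L (G.eval (α : K)) ≤ ρ / M := by
      refine hkey2.trans ?_
      rw [le_div_iff₀ hM0]
      exact mul_le_of_le_one_right hρ0.le hM1
    have h4 := fin_add L _ _ h1 h2
    rwa [sub_add_cancel] at h4
  have hGs0 : G.eval s ≠ 0 := hGr s
  have hLG : 0 < L (G.eval s) := L.1.pos hGs0
  have hlG : Real.log (L (G.eval s)) ≤ Real.log ρ - Real.log M := by
    rw [← Real.log_div hρ0.ne' hM0.ne']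
    exact Real.log_le_log hLG hGs1
  have hht := ht_le hR1 htne (fun w => (hw w).1) (fun w => (hw w).2) L
  rw [← hd, ← hM, ← hs] at hht
  have hMn : Real.log M ≤ 0 := Real.log_nonpos hM0.le hM1
  rw [← hL]
  refine ⟨s, ?_, ?_⟩
  · have a1 := hGAIN K (G.eval s) hGs0 v₀
    have a2 := wt_nonneg (fun v : HeightOneSpectrum (𝓞 K) => v.valuation K (G.eval s) < 1)
    have a3 := h3 s
    rw [← hL] at a1
    have a4 : m * B ≤ m * logHeight₁ s := by linarith
    exact le_of_mul_le_mul_left a4 (by linarith)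
  · linarith

end Pool.Agent.Helper8.RX
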