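import Pool.Agent.Helper8.RC.NTerm

/-!
# From `n + 1` terms to `n` terms
-/

set_option autoImplicit false

namespace Pool.Agent.Helper8.RX

open NumberField IsDedekindDomain Height Polynomial Pool.Agent.Q290.NF Pool.Agent.Helper8.RC

variable {K : Type} [Field K]

/-- the coordinate `z 0` is split into `μ z 0` and `(1 - μ) z 0` -/
def spl {m : ℕ} (μ : K) (z : Fin (m + 1) → K) : Fin (m + 2) → K :=
  Fin.cons (μ * z 0) fun i => if i = 0 then (1 - μ) * z 0 else z i

theorem spl_sum {m : ℕ} (μ : K) (z : Fin (m + 1) → K) : ∑ j, spl μ z j = ∑ i, z i := by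
  unfold spl
  rw [Fin.sum_univ_succ, Fin.cons_zero]
  simp only [Fin.cons_succ]
  rw [Fin.sum_univ_succ, Fin.sum_univ_succ (f := z), if_pos rfl]
  have : ∑ i : Fin m, (if i.succ = 0 then (1 - μ) * z 0 else z i.succ) = ∑ i : Fin m, z i.succ :=
    Finset.sum_congr rfl fun i _ => if_neg (Fin.succ_ne_zero i)
  rw [this]
  ring

theorem spl_ne {m : ℕ} {μ : K} (h0 : μ ≠ 0) (h1 : 1 - μ ≠ 0) {z : Fin (m + 1) → K}
    (hz : ∀ i, z i ≠ 0) (j : Fin (m + 2)) : spl μ z j ≠ 0 := by
  unfold spl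
  refine Fin.cases ?_ (fun i => ?_) j
  · rw [Fin.cons_zero]
    exact mul_ne_zero h0 (hz 0)
  · rw [Fin.cons_succ]
    split_ifs
    · exact mul_ne_zero h1 (hz 0)
    · exact hz i

/-- the linear forms -/
noncomputable def splF {m : ℕ} (μ : K) : Fin (m + 2) → MvPolynomial (Fin (m + 1)) K :=
  Fin.cons (MvPolynomial.C μ * MvPolynomial.X 0) fun i =>
    if i = 0 then MvPolynomial.C (1 - μ) * MvPolynomial.X 0 else MvPolynomial.X i

theorem splF_eval {m : ℕ} (μ : K) (z : Fin (m + 1) → K) (j : Fin (m + 2)) :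
    MvPolynomial.eval z (splF μ j) = spl μ z j := by
  unfold splF spl
  refine Fin.cases ?_ (fun i => ?_) j
  · rw [Fin.cons_zero, Fin.cons_zero]
    simp
  · rw [Fin.cons_succ, Fin.cons_succ]
    split_ifs <;> simp

theorem splF_hom {m : ℕ} (μ : K) (j : Fin (m + 2)) : (splF (m := m) μ j).IsHomogeneous 1 := by
  unfold splF
  refine Fin.cases ?_ (fun i => ?_) j
  · rw [Fin.cons_zero]
    have := (MvPolynomial.isHomogeneous_C (Fin (m + 1)) μ).mul
      (MvPolynomial.isHomogeneous_X K (0 : Fin (m + 1)))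
    rwa [zero_add] at this
  · rw [Fin.cons_succ]
    split_ifs
    · have := (MvPolynomial.isHomogeneous_C (Fin (m + 1)) (1 - μ)).mul
        (MvPolynomial.isHomogeneous_X K (0 : Fin (m + 1)))
      rwa [zero_add] at this
    · exact MvPolynomial.isHomogeneous_X K i

theorem exists_mu [CharZero K] {m : ℕ} (hm : 1 ≤ m) (G : MvPolynomial (Fin (m + 2)) K)
    (w : Fin (m + 2) → K) (hw : ∑ j, w j = 0) (hG : MvPolynomial.eval w G ≠ 0) :
    ∃ (μ : K) (z : Fin (m + 1) → K), μ ≠ 0 ∧ 1 - μ ≠ 0 ∧ ∑ i, z i = 0 ∧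
      MvPolynomial.eval (spl μ z) G ≠ 0 := by
  classical
  obtain ⟨k, rfl⟩ : ∃ k, m = k + 1 := ⟨m - 1, by omega⟩
  obtain ⟨d, hd⟩ : ∃ d : Fin (k + 3) → K, d = Fin.cons 1 (Fin.cons 1 (Fin.cons (-2)
    fun _ => 0)) := ⟨_, rfl⟩
  have hd0 : d 0 = 1 := by rw [hd]; rfl
  have hd1 : d 1 = 1 := by rw [hd]; rfl
  have hds : ∑ j, d j = 0 := by
    rw [hd, Fin.sum_univ_succ, Fin.cons_zero]
    simp only [Fin.cons_succ]
    rw [Fin.sum_univ_succ, Fin.cons_zero]
    simp only [Fin.cons_succ]
    rw [Fin.sum_univ_succ, Fin.cons_zero]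
    simp only [Fin.cons_succ, Finset.sum_const_zero]
    ring
  obtain ⟨Q, hQ⟩ : ∃ Q : K[X], Q = MvPolynomial.aeval (fun j => C (w j) + C (d j) * X) G :=
    ⟨_, rfl⟩
  have hQe : ∀ t : K, Q.eval t = MvPolynomial.eval (fun j => w j + d j * t) G := by
    intro t
    have e1 := MvPolynomial.map_aeval (fun j => C (w j) + C (d j) * X) (evalRingHom t) G
    have e2 : (evalRingHom t).comp (algebraMap K K[X]) = RingHom.id K := by
      ext x
      simp
    rw [e2] at e1
    rw [hQ]
    refine (Eq.trans ?_ e1).trans ?_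
    · rfl
    · show MvPolynomial.eval₂ (RingHom.id K) _ G = _
      have : (fun j => (evalRingHom t) (C (w j) + C (d j) * X)) = fun j => w j + d j * t := by
        funext j
        simp
      rw [this]
      rfl
  have hQ0 : Q ≠ 0 := by
    intro h
    apply hG
    have := hQe 0
    rw [h, eval_zero] at this
    rw [this]
    simp
  have n0 : (X + C (w 0) : K[X]) ≠ 0 := X_add_C_ne_zero _
  have n1 : (X + C (w 1) : K[X]) ≠ 0 := X_add_C_ne_zero _
  have n2 : (X + C ((w 0 + w 1) / 2) : K[X]) ≠ 0 := X_add_C_ne_zero _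
  obtain ⟨t, ht⟩ : ∃ t : K, (Q * ((X + C (w 0)) * ((X + C (w 1)) *
      (X + C ((w 0 + w 1) / 2)))) : K[X]).eval t ≠ 0 := by
    by_contra hcon
    push Not at hcon
    have : (Q * ((X + C (w 0)) * ((X + C (w 1)) * (X + C ((w 0 + w 1) / 2)))) : K[X]) = 0 :=
      Polynomial.funext fun t => by rw [hcon t, eval_zero]
    exact mul_ne_zero hQ0 (mul_ne_zero n0 (mul_ne_zero n1 n2)) this
  rw [eval_mul, eval_mul, eval_mul] at ht
  simp only [eval_add, eval_X, eval_C] at ht
  have t1 := left_ne_zero_of_mul ht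
  have t2 := right_ne_zero_of_mul ht
  have t3 := left_ne_zero_of_mul t2
  have t4 := right_ne_zero_of_mul t2
  have t5 := left_ne_zero_of_mul t4
  have t6 := right_ne_zero_of_mul t4
  obtain ⟨x, hx⟩ : ∃ x : Fin (k + 3) → K, x = fun j => w j + d j * t := ⟨_, rfl⟩
  have x0 : x 0 ≠ 0 := by
    rw [hx]
    dsimp only
    rw [hd0, one_mul, add_comm]
    exact t3
  have x1 : x 1 ≠ 0 := by
    rw [hx]
    dsimp only
    rw [hd1, one_mul, add_comm]
    exact t5
  have x2 : x 0 + x 1 ≠ 0 := by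
    rw [hx]
    dsimp only
    rw [hd0, hd1]
    intro h
    apply t6
    linear_combination h / 2
  have xs : ∑ j, x j = 0 := by
    rw [hx]
    dsimp only
    rw [Finset.sum_add_distrib, ← Finset.sum_mul, hds, hw]
    ring
  refine ⟨x 0 / (x 0 + x 1), Fin.cons (x 0 + x 1) fun i => x i.succ.succ, div_ne_zero x0 x2, ?_,
    ?_, ?_⟩
  · rw [one_sub_div x2]
    exact div_ne_zero (by simpa using x1) x2
  · rw [Fin.sum_univ_succ] at xs
    rw [Fin.sum_univ_succ] at xs
    rw [Fin.sum_univ_succ, Fin.cons_zero]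
    simp only [Fin.cons_succ]
    rw [← xs]
    show x 0 + x 1 + _ = x 0 + (x 1 + _)
    ring
  · have : spl (x 0 / (x 0 + x 1)) (Fin.cons (x 0 + x 1) fun i => x i.succ.succ :
        Fin (k + 2) → K) = x := by
      funext j
      unfold spl
      refine Fin.cases ?_ (fun i => ?_) j
      · rw [Fin.cons_zero, Fin.cons_zero]
        field_simp
      · rw [Fin.cons_succ]
        refine Fin.cases ?_ (fun i => ?_) i
        · rw [if_pos rfl, Fin.cons_zero, one_sub_div x2]
          show (x 0 + x 1 - x 0) / (x 0 + x 1) * (x 0 + x 1) = x 1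
          field_simp
          ring
        · rw [if_neg (Fin.succ_ne_zero i), Fin.cons_succ]
    rw [this, hx]
    rw [hQe] at t1
    exact t1

theorem eval_spl {m : ℕ} (μ : K) (z : Fin (m + 1) → K) (G : MvPolynomial (Fin (m + 2)) K) :
    MvPolynomial.eval z (MvPolynomial.aeval (splF μ) G) = MvPolynomial.eval (spl μ z) G := by
  have e1 := MvPolynomial.map_aeval (splF (m := m) μ) (MvPolynomial.eval z) G
  have e2 : (MvPolynomial.eval z).comp (algebraMap K (MvPolynomial (Fin (m + 1)) K)) =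
      RingHom.id K := by
    ext x
    simp
  rw [e2] at e1
  refine e1.trans ?_
  have : (fun j => (MvPolynomial.eval z) (splF μ j)) = spl μ z := by
    funext j
    exact splF_eval μ z j
  rw [this]
  rfl

/-- three terms: the points on a hypersurface have bounded height -/
theorem three_z [CharZero K] (G : MvPolynomial (Fin 3) K) (e : ℕ) (hG : G.IsHomogeneous e)
    (w : Fin 3 → K) (hw : ∑ j, w j = 0) (hGw : MvPolynomial.eval w G ≠ 0) :
    ∃ E : Finset K, ∀ z : Fin 3 → K, z 2 ≠ 0 → ∑ j, z j = 0 → MvPolynomial.eval z G = 0 →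
      ∃ x ∈ E, z = z 2 • ![x, -1 - x, 1] := by
  classical
  obtain ⟨g, hg⟩ : ∃ g : K[X], g = MvPolynomial.aeval ![X, -1 - X, 1] G := ⟨_, rfl⟩
  have hge : ∀ t : K, g.eval t = MvPolynomial.eval ![t, -1 - t, 1] G := by
    intro t
    have e1 := MvPolynomial.map_aeval ![X, -1 - X, 1] (evalRingHom t) G
    have e2 : (evalRingHom t).comp (algebraMap K K[X]) = RingHom.id K := by
      ext x
      simp
    rw [e2] at e1
    rw [hg]
    refine (Eq.trans ?_ e1).trans ?_
    · rfl
    · show MvPolynomial.eval₂ (RingHom.id K) _ G = _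
      have : (fun j => (evalRingHom t) ((![X, -1 - X, 1] : Fin 3 → K[X]) j)) =
          ![t, -1 - t, 1] := by
        funext j
        fin_cases j <;> simp
      rw [this]
      rfl
  have hscale : ∀ z : Fin 3 → K, z 2 ≠ 0 → ∑ j, z j = 0 →
      z = z 2 • ![z 0 / z 2, -1 - z 0 / z 2, 1] ∧
      MvPolynomial.eval z G = z 2 ^ e * g.eval (z 0 / z 2) := by
    intro z hz hs
    rw [Fin.sum_univ_three] at hs
    have e0 : z = z 2 • ![z 0 / z 2, -1 - z 0 / z 2, 1] := by
      funext j
      fin_cases j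
      · show z 0 = z 2 * (z 0 / z 2)
        field_simp
      · show z 1 = z 2 * (-1 - z 0 / z 2)
        field_simp
        linear_combination hs
      · show z 2 = z 2 * 1
        ring
    refine ⟨e0, ?_⟩
    rw [hge]
    conv_lhs => rw [e0]
    have h1 := MvPolynomial.eval₂_eq' (RingHom.id K) (z 2 • ![z 0 / z 2, -1 - z 0 / z 2, 1]) G
    have h2 := MvPolynomial.eval₂_eq' (RingHom.id K) ![z 0 / z 2, -1 - z 0 / z 2, 1] G
    have h3 : MvPolynomial.eval (z 2 • ![z 0 / z 2, -1 - z 0 / z 2, 1]) G =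
      MvPolynomial.eval₂ (RingHom.id K) (z 2 • ![z 0 / z 2, -1 - z 0 / z 2, 1]) G := rfl
    have h4 : MvPolynomial.eval ![z 0 / z 2, -1 - z 0 / z 2, 1] G =
      MvPolynomial.eval₂ (RingHom.id K) ![z 0 / z 2, -1 - z 0 / z 2, 1] G := rfl
    rw [h3, h4, h1, h2, Finset.mul_sum]
    refine Finset.sum_congr rfl fun d hd => ?_
    have h5 : ∑ i, d i = e := by
      have h6 := hG (MvPolynomial.mem_support_iff.1 hd)
      rw [Finsupp.weight_apply, Finsupp.sum_fintype _ _ (fun i => by simp)] at h6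
      simpa using h6
    simp only [Pi.smul_apply, smul_eq_mul, mul_pow]
    rw [Finset.prod_mul_distrib, Finset.prod_pow_eq_pow_sum, h5]
    ring
  have hg0 : g ≠ 0 := by
    intro h0
    -- move `w` off `w 2 = 0`
    obtain ⟨Q, hQ⟩ : ∃ Q : K[X], Q = MvPolynomial.aeval ![C (w 0) - X, C (w 1), C (w 2) + X] G :=
      ⟨_, rfl⟩
    have hQe : ∀ t : K, Q.eval t = MvPolynomial.eval ![w 0 - t, w 1, w 2 + t] G := by
      intro t
      have e1 := MvPolynomial.map_aeval ![C (w 0) - X, C (w 1), C (w 2) + X] (evalRingHom t) G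
      have e2 : (evalRingHom t).comp (algebraMap K K[X]) = RingHom.id K := by
        ext x
        simp
      rw [e2] at e1
      rw [hQ]
      refine (Eq.trans ?_ e1).trans ?_
      · rfl
      · show MvPolynomial.eval₂ (RingHom.id K) _ G = _
        have : (fun j => (evalRingHom t) ((![C (w 0) - X, C (w 1), C (w 2) + X] :
            Fin 3 → K[X]) j)) = ![w 0 - t, w 1, w 2 + t] := by
          funext j
          fin_cases j <;> simp
        rw [this]
        rfl
    have hw3 : ![w 0 - 0, w 1, w 2 + 0] = w := by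
      funext j
      fin_cases j <;> simp
    have hQ0 : Q ≠ 0 := by
      intro h
      apply hGw
      have := hQe 0
      rw [h, eval_zero, hw3] at this
      exact this.symm
    have hQ1 : (X + C (w 2)) * Q = 0 := by
      refine Polynomial.funext fun t => ?_
      rw [eval_mul, eval_add, eval_X, eval_C, eval_zero, hQe]
      by_cases ht : t + w 2 = 0
      · rw [ht, zero_mul]
      · have h1 := (hscale ![w 0 - t, w 1, w 2 + t] (by
          show w 2 + t ≠ 0
          rwa [add_comm]) (by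
          rw [Fin.sum_univ_three] at hw ⊢
          show w 0 - t + w 1 + (w 2 + t) = 0
          linear_combination hw)).2
        rw [h1, h0, eval_zero, mul_zero, mul_zero]
    exact mul_ne_zero (X_add_C_ne_zero _) hQ0 hQ1
  refine ⟨g.roots.toFinset, fun z hz hs hGz => ?_⟩
  obtain ⟨a, b⟩ := hscale z hz hs
  refine ⟨z 0 / z 2, ?_, a⟩
  rw [Multiset.mem_toFinset, mem_roots hg0]
  rw [hGz] at b
  exact (mul_eq_zero.1 b.symm).resolve_left (pow_ne_zero _ hz)

section

variable [NumberField K]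

theorem spl_height {m : ℕ} {μ : K} (h0 : μ ≠ 0) : ∃ C : ℝ, ∀ z : Fin (m + 1) → K,
    logHeight z ≤ logHeight (spl μ z) + C := by
  obtain ⟨C, hC⟩ := logHeight_eval_le' (K := K) (N := 1)
    (p := fun i : Fin (m + 1) => if i = 0 then
      (MvPolynomial.C μ⁻¹ * MvPolynomial.X 0 : MvPolynomial (Fin (m + 2)) K) else
      MvPolynomial.X i.succ) (by
      intro i
      split_ifs
      · have := (MvPolynomial.isHomogeneous_C (Fin (m + 2)) μ⁻¹).mul
          (MvPolynomial.isHomogeneous_X K (0 : Fin (m + 2)))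
        rwa [zero_add] at this
      · exact MvPolynomial.isHomogeneous_X K _)
  refine ⟨C, fun z => ?_⟩
  have h1 := hC (spl μ z)
  have h2 : (fun j : Fin (m + 1) => MvPolynomial.eval (spl μ z) (if j = 0 then
      (MvPolynomial.C μ⁻¹ * MvPolynomial.X 0 : MvPolynomial (Fin (m + 2)) K) else
      MvPolynomial.X j.succ)) = z := by
    funext j
    unfold spl
    split_ifs with h
    · rw [h, map_mul, MvPolynomial.eval_C, MvPolynomial.eval_X, Fin.cons_zero]
      field_simp
    · rw [MvPolynomial.eval_X, Fin.cons_succ, if_neg h]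
  rw [h2] at h1
  push_cast at h1
  linarith

theorem spl_rad {m : ℕ} {μ : K} (h0 : μ ≠ 0) (h1 : 1 - μ ≠ 0) : ∃ C : ℝ,
    ∀ z : Fin (m + 1) → K, (∀ i, z i ≠ 0) →
      wt (fun v => Rd (spl μ z) v) ≤ wt (fun v => Rd z v) + C := by
  obtain ⟨B, hB⟩ : ∃ B : Set (HeightOneSpectrum (𝓞 K)), B = nonunit μ ∪ nonunit (1 - μ) :=
    ⟨_, rfl⟩
  have hBf : B.Finite := by
    rw [hB]
    exact (nonunit_fin h0).union (nonunit_fin h1)
  refine ⟨wt (fun v => v ∈ B), fun z hz => ?_⟩
  refine (wt_mono (Q := fun v => Rd z v ∨ v ∈ B) ((fin_rd hz).union hBf) ?_).trans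
    (wt_or_le (fin_rd hz) hBf)
  intro v hv
  by_contra hcon
  rw [not_or] at hcon
  obtain ⟨c1, c2⟩ := hcon
  rw [hB, Set.mem_union, not_or] at c2
  obtain ⟨c2, c3⟩ := c2
  have e1 : v.valuation K μ = 1 := by
    by_contra h
    exact c2 h
  have e2 : v.valuation K (1 - μ) = 1 := by
    by_contra h
    exact c3 h
  have e3 : ∀ i j, v.valuation K (z i) = v.valuation K (z j) := by
    intro i j
    by_contra h
    exact c1 ⟨i, j, h⟩
  have e4 : ∀ j, v.valuation K (spl μ z j) = v.valuation K (z 0) := by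
    intro j
    unfold spl
    refine Fin.cases ?_ (fun i => ?_) j
    · rw [Fin.cons_zero, map_mul, e1, one_mul]
    · rw [Fin.cons_succ]
      split_ifs
      · rw [map_mul, e2, one_mul]
      · exact e3 _ _
  obtain ⟨i, j, hij⟩ := hv
  exact hij (by rw [e4, e4])

end

end Pool.Agent.Helper8.RX
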