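import Pool.Agent.Helper8.RX.Stf

set_option autoImplicit false

/-!
# Coprime coordinates of a point over `F(t)` (module FFC)
-/

namespace Pool.Agent.Helper8.RX.FFC

open IsDedekindDomain Polynomial Pool.Agent.Helper8.RC Pool.Agent.Helper8.RX

variable {F : Type} [Field F]

/-- coprime coordinates -/
theorem coprime {n : ℕ} (hn : 0 < n) (z : Fin n → RatFunc F) (hz : ∀ i, z i ≠ 0) :
    ∃ (g : RatFunc F) (P : Fin n → F[X]), g ≠ 0 ∧
      (∀ i, z i = g * algebraMap F[X] (RatFunc F) (P i)) ∧ Ideal.span (Set.range P) = ⊤ := by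
  classical
  obtain ⟨b, hb⟩ := IsLocalization.exist_integer_multiples_of_finite (nonZeroDivisors F[X]) z
  choose p hp using hb
  have hb0 : (algebraMap F[X] (RatFunc F) (b : F[X])) ≠ 0 := by
    rw [Ne, map_eq_zero_iff _ (IsFractionRing.injective F[X] (RatFunc F))]
    exact nonZeroDivisors.ne_zero b.2
  have hp' : ∀ i, algebraMap F[X] (RatFunc F) (p i) =
      algebraMap F[X] (RatFunc F) (b : F[X]) * z i := by
    intro i
    rw [hp i, Algebra.smul_def]
  obtain ⟨d, hd⟩ := (IsPrincipalIdealRing.principal (Ideal.span (Set.range p))).principal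
  have hdvd : ∀ i, d ∣ p i := by
    intro i
    have h1 : p i ∈ Ideal.span (Set.range p) := Ideal.subset_span ⟨i, rfl⟩
    rw [hd] at h1
    exact Ideal.mem_span_singleton.1 h1
  choose P hP using hdvd
  have hpi : ∀ i, p i ≠ 0 := by
    intro i h
    have h1 := hp' i
    rw [h, map_zero] at h1
    exact (mul_ne_zero hb0 (hz i)) h1.symm
  have hd0 : d ≠ 0 := by
    rintro rfl
    apply hpi ⟨0, hn⟩
    rw [hP, zero_mul]
  have hda : algebraMap F[X] (RatFunc F) d ≠ 0 := by
    rw [Ne, map_eq_zero_iff _ (IsFractionRing.injective F[X] (RatFunc F))]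
    exact hd0
  refine ⟨algebraMap F[X] (RatFunc F) d / algebraMap F[X] (RatFunc F) (b : F[X]), P,
    div_ne_zero hda hb0, fun i => ?_, ?_⟩
  · have h1 := hp' i
    rw [hP i, map_mul] at h1
    rw [div_mul_eq_mul_div, eq_div_iff hb0, mul_comm, ← h1]
  · have h1 : d ∈ Ideal.span (Set.range p) := by
      rw [hd]
      exact Ideal.mem_span_singleton_self d
    rw [Ideal.mem_span_range_iff_exists_fun] at h1
    obtain ⟨c, hc⟩ := h1
    rw [Ideal.eq_top_iff_one, Ideal.mem_span_range_iff_exists_fun]
    refine ⟨c, ?_⟩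
    have h2 : d * ∑ i, c i * P i = d * 1 := by
      rw [mul_one, Finset.mul_sum]
      conv_rhs => rw [← hc]
      refine Finset.sum_congr rfl fun i _ => ?_
      rw [hP i]
      ring
    exact mul_left_cancel₀ hd0 h2

/-- the valuations of the coprime coordinates -/
theorem val_one {n : ℕ} {P : Fin n → F[X]} (hP : Ideal.span (Set.range P) = ⊤)
    (v : HeightOneSpectrum F[X]) : ∃ j, v.valuation (RatFunc F) (algebraMap F[X] (RatFunc F) (P j)) = 1 := by
  by_contra hcon
  push Not at hcon
  have h1 : ∀ j, P j ∈ v.asIdeal := fun j =>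
    (HeightOneSpectrum.valuation_lt_one_iff_mem (K := RatFunc F) v (P j)).1
      (lt_of_le_of_ne (HeightOneSpectrum.valuation_le_one (K := RatFunc F) v (P j)) (hcon j))
  have h2 : Ideal.span (Set.range P) ≤ v.asIdeal := by
    rw [Ideal.span_le]
    rintro _ ⟨j, rfl⟩
    exact h1 j
  rw [hP, top_le_iff] at h2
  exact v.isPrime.ne_top h2

theorem val_ne {v : HeightOneSpectrum F[X]} {g : RatFunc F} (hg : g ≠ 0) :
    v.valuation (RatFunc F) g ≠ 0 := by
  rw [Ne, map_eq_zero]
  exact hg

theorem sup_val {n : ℕ} {z : Fin n → RatFunc F} {g : RatFunc F} {P : Fin n → F[X]}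
    (hg : g ≠ 0) (hz0 : ∀ i, z i ≠ 0)
    (hz : ∀ i, z i = g * algebraMap F[X] (RatFunc F) (P i)) (hP : Ideal.span (Set.range P) = ⊤)
    (v : HeightOneSpectrum F[X]) :
    (⨆ j, WithZero.log (v.valuation (RatFunc F) (z j))) =
      WithZero.log (v.valuation (RatFunc F) g) := by
  obtain ⟨j0, hj0⟩ := val_one hP v
  have : Nonempty (Fin n) := ⟨j0⟩
  refine le_antisymm (ciSup_le fun j => ?_) ?_
  · rw [WithZero.log_le_log (val_ne (hz0 j)) (val_ne hg), hz j, map_mul]
    exact mul_le_of_le_one_right' (HeightOneSpectrum.valuation_le_one (K := RatFunc F) v (P j))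
  · refine le_ciSup_of_le (Set.finite_range _).bddAbove j0 ?_
    rw [hz j0, map_mul, hj0, mul_one]

theorem sup_deg {n : ℕ} (hn : 0 < n) {z : Fin n → RatFunc F} {g : RatFunc F} {P : Fin n → F[X]}
    (hg : g ≠ 0) (hz0 : ∀ i, z i ≠ 0)
    (hz : ∀ i, z i = g * algebraMap F[X] (RatFunc F) (P i)) :
    (⨆ j, (z j).intDegree) = g.intDegree + (dgn P : ℤ) := by
  have : Nonempty (Fin n) := ⟨⟨0, hn⟩⟩
  have hP0 : ∀ j, algebraMap F[X] (RatFunc F) (P j) ≠ 0 := by
    intro j h
    apply hz0 j
    rw [hz j, h, mul_zero]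
  have h1 : ∀ j, (z j).intDegree = g.intDegree + ((P j).natDegree : ℤ) := by
    intro j
    rw [hz j, RatFunc.intDegree_mul hg (hP0 j), RatFunc.intDegree_polynomial]
  simp only [h1]
  refine le_antisymm (ciSup_le fun j => ?_) ?_
  · have : (P j).natDegree ≤ dgn P :=
      Finset.le_sup (f := fun i => (P i).natDegree) (Finset.mem_univ j)
    have : ((P j).natDegree : ℤ) ≤ (dgn P : ℤ) := by exact_mod_cast this
    linarith
  · obtain ⟨j, -, hj⟩ := Finset.exists_mem_eq_sup Finset.univ Finset.univ_nonempty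
      (fun i => (P i).natDegree)
    refine le_ciSup_of_le (Set.finite_range _).bddAbove j ?_
    have : dgn P = (P j).natDegree := hj
    rw [this]

theorem main (hA : S_FFA) (hB : S_FFB) : S_FFC := by
  classical
  intro F _ n hn z hz0
  obtain ⟨g, P, hg, hz, hP⟩ := coprime hn z hz0
  refine ⟨g, P, hg, hz, hP, ?_, ?_⟩
  · have h1 := (hA F g hg).2
    unfold hff
    simp only [sup_val hg hz0 hz hP]
    rw [sup_deg hn hg hz0 hz]
    linarith
  · have hP0 : ∀ j, P j ≠ 0 := by
      intro j h
      apply hz0 j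
      rw [hz j, h, map_zero, mul_zero]
    have hPa : ∀ j, algebraMap F[X] (RatFunc F) (P j) ≠ 0 := by
      intro j h
      apply hz0 j
      rw [hz j, h, mul_zero]
    have hprod : (∏ i, P i) ≠ 0 := Finset.prod_ne_zero_iff.2 fun i _ => hP0 i
    have h1 := hB F (∏ i, P i) hprod
    have h2 : ∀ v : HeightOneSpectrum F[X],
        (∃ i j, v.valuation (RatFunc F) (z i) ≠ v.valuation (RatFunc F) (z j)) ↔
          (∏ i, P i) ∈ v.asIdeal := by
      intro v
      obtain ⟨j0, hj0⟩ := val_one hP v
      rw [v.isPrime.prod_mem_iff]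
      constructor
      · rintro ⟨i, j, hij⟩
        by_contra hcon
        push Not at hcon
        have h3 : ∀ i, v.valuation (RatFunc F) (algebraMap F[X] (RatFunc F) (P i)) = 1 := by
          intro i
          by_contra hne
          exact hcon i (Finset.mem_univ i)
            ((HeightOneSpectrum.valuation_lt_one_iff_mem (K := RatFunc F) v (P i)).1
              (lt_of_le_of_ne (HeightOneSpectrum.valuation_le_one (K := RatFunc F) v (P i)) hne))
        apply hij
        rw [hz i, hz j, map_mul, map_mul, h3, h3]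
      · rintro ⟨i, -, hi⟩
        refine ⟨i, j0, ?_⟩
        have h3 := (HeightOneSpectrum.valuation_lt_one_iff_mem (K := RatFunc F) v (P i)).2 hi
        rw [hz i, hz j0, map_mul, map_mul, hj0, mul_one]
        intro h4
        have h5 : v.valuation (RatFunc F) (algebraMap F[X] (RatFunc F) (P i)) = 1 := by
          have h6 := val_ne (v := v) hg
          exact mul_left_cancel₀ h6 (by rw [h4, mul_one])
        exact absurd h3 (by
          show ¬ (v.valuation (RatFunc F) (algebraMap F[X] (RatFunc F) (P i)) < 1)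
          rw [h5]
          exact lt_irrefl _)
    have h3 : ∀ i j, (z i).intDegree = (z j).intDegree ↔ (P i).natDegree = (P j).natDegree := by
      intro i j
      rw [hz i, hz j, RatFunc.intDegree_mul hg (hPa i), RatFunc.intDegree_mul hg (hPa j),
        RatFunc.intDegree_polynomial, RatFunc.intDegree_polynomial]
      omega
    unfold radff ptn
    have h4 : (∑ᶠ v : HeightOneSpectrum F[X],
        if ∃ i j, v.valuation (RatFunc F) (z i) ≠ v.valuation (RatFunc F) (z j) then
          (dgv v : ℤ) else 0) = ((UniqueFactorizationMonoid.radical (∏ i, P i)).natDegree : ℤ) := by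
      rw [← h1]
      refine finsum_congr fun v => ?_
      by_cases hv : (∏ i, P i) ∈ v.asIdeal
      · rw [if_pos hv, if_pos ((h2 v).2 hv)]
      · rw [if_neg hv, if_neg (fun h => hv ((h2 v).1 h))]
    have h5 : (if ∃ i j, (z i).intDegree ≠ (z j).intDegree then (1 : ℤ) else 0) =
        ((if ∀ i j, (P i).natDegree = (P j).natDegree then 0 else 1 : ℕ) : ℤ) := by
      by_cases hd : ∀ i j, (P i).natDegree = (P j).natDegree
      · rw [if_pos hd, if_neg]
        · rfl
        · rintro ⟨i, j, hij⟩
          exact hij ((h3 i j).2 (hd i j))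
      · rw [if_neg hd, if_pos]
        · rfl
        · push Not at hd
          obtain ⟨i, j, hij⟩ := hd
          exact ⟨i, j, fun h => hij ((h3 i j).1 h)⟩
    push_cast
    push_cast at h5
    convert congrArg₂ (· + ·) h4 h5 using 1

end Pool.Agent.Helper8.RX.FFC
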