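import Pool.Agent.Helper8.RX.Stf

/-!
# FFA: the product formula in `F(t)` (project RX of helper8; module by helper11)
-/

set_option autoImplicit false

namespace Pool.Agent.Helper8.RX

open IsDedekindDomain Polynomial

namespace FFA

variable {F : Type} [Field F]

/-- the statement for one element -/
def PF (g : RatFunc F) : Prop :=
  {v : HeightOneSpectrum F[X] | v.valuation (RatFunc F) g ≠ 1}.Finite ∧
    (∑ᶠ v : HeightOneSpectrum F[X], (dgv v : ℤ) * WithZero.log (v.valuation (RatFunc F) g)) +
      g.intDegree = 0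

theorem supp_subset (g : RatFunc F) :
    (Function.support fun v : HeightOneSpectrum F[X] =>
      (dgv v : ℤ) * WithZero.log (v.valuation (RatFunc F) g)) ⊆
      {v : HeightOneSpectrum F[X] | v.valuation (RatFunc F) g ≠ 1} := by
  intro v hv
  rw [Function.mem_support] at hv
  intro h
  apply hv
  rw [h, WithZero.log_one, mul_zero]

theorem PF_mul {g h : RatFunc F} (hg0 : g ≠ 0) (hh0 : h ≠ 0) (hg : PF g) (hh : PF h) :
    PF (g * h) := by
  refine ⟨(hg.1.union hh.1).subset fun v hv => ?_, ?_⟩
  · by_contra h1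
    rw [Set.mem_union, not_or, Set.mem_ofPred_eq, Set.mem_ofPred_eq, not_not, not_not] at h1
    apply hv
    rw [map_mul, h1.1, h1.2, one_mul]
  · have h1 : ∀ v : HeightOneSpectrum F[X],
        (dgv v : ℤ) * WithZero.log (v.valuation (RatFunc F) (g * h)) =
        (dgv v : ℤ) * WithZero.log (v.valuation (RatFunc F) g) +
          (dgv v : ℤ) * WithZero.log (v.valuation (RatFunc F) h) := by
      intro v
      rw [map_mul, WithZero.log_mul ((Valuation.ne_zero_iff _).2 hg0)
        ((Valuation.ne_zero_iff _).2 hh0), mul_add]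
    rw [finsum_congr h1, finsum_add_distrib (hg.1.subset (supp_subset g))
      (hh.1.subset (supp_subset h)), RatFunc.intDegree_mul hg0 hh0]
    have h2 := hg.2
    have h3 := hh.2
    linarith

theorem PF_inv {g : RatFunc F} (hg : PF g) : PF g⁻¹ := by
  refine ⟨hg.1.subset fun v hv h => hv ?_, ?_⟩
  · rw [map_inv₀, h, inv_one]
  · have h1 : ∀ v : HeightOneSpectrum F[X],
        (dgv v : ℤ) * WithZero.log (v.valuation (RatFunc F) g⁻¹) =
        -((dgv v : ℤ) * WithZero.log (v.valuation (RatFunc F) g)) := by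
      intro v
      rw [map_inv₀, WithZero.log_inv, mul_neg]
    rw [finsum_congr h1, finsum_neg_distrib, RatFunc.intDegree_inv]
    have h2 := hg.2
    linarith

theorem PF_one {g : RatFunc F} (hv : ∀ v : HeightOneSpectrum F[X], v.valuation (RatFunc F) g = 1)
    (hd : g.intDegree = 0) : PF g := by
  refine ⟨?_, ?_⟩
  · have : {v : HeightOneSpectrum F[X] | v.valuation (RatFunc F) g ≠ 1} = ∅ := by
      rw [Set.eq_empty_iff_forall_notMem]
      intro v h
      exact h (hv v)
    rw [this]
    exact Set.finite_empty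
  · have h1 : ∀ v : HeightOneSpectrum F[X],
        (dgv v : ℤ) * WithZero.log (v.valuation (RatFunc F) g) = 0 := by
      intro v
      rw [hv, WithZero.log_one, mul_zero]
    rw [finsum_congr h1, finsum_zero, hd, add_zero]

/-- the place of a prime polynomial -/
noncomputable def plc (p : F[X]) (hp : Prime p) : HeightOneSpectrum F[X] where
  asIdeal := Ideal.span {p}
  isPrime := (Ideal.span_singleton_prime hp.ne_zero).2 hp
  ne_bot := by
    rw [Ne, Ideal.span_singleton_eq_bot]
    exact hp.ne_zero

theorem eq_plc {p : F[X]} (hp : Prime p) {v : HeightOneSpectrum F[X]} (h : p ∈ v.asIdeal) :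
    v = plc p hp := by
  refine HeightOneSpectrum.ext ?_
  have h1 : (plc p hp).asIdeal ≤ v.asIdeal := by
    show Ideal.span {p} ≤ v.asIdeal
    rw [Ideal.span_singleton_le_iff_mem]
    exact h
  exact (((plc p hp).isMaximal).eq_of_le v.isPrime.ne_top h1).symm

theorem mem_iff {p : F[X]} (hp : Prime p) (v : HeightOneSpectrum F[X]) :
    p ∈ v.asIdeal ↔ v = plc p hp := by
  refine ⟨eq_plc hp, ?_⟩
  rintro rfl
  exact Ideal.mem_span_singleton_self p

theorem dgv_plc {p : F[X]} (hp : Prime p) : dgv (plc p hp) = p.natDegree :=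
  finrank_quotient_span_eq_natDegree

theorem PF_prime {p : F[X]} (hp : Prime p) : PF (algebraMap F[X] (RatFunc F) p) := by
  have h1 : ∀ v : HeightOneSpectrum F[X], v ≠ plc p hp →
      v.valuation (RatFunc F) (algebraMap F[X] (RatFunc F) p) = 1 := by
    intro v hv
    rw [HeightOneSpectrum.valuation_eq_one_iff_notMem]
    exact fun h => hv (eq_plc hp h)
  refine ⟨(Set.finite_singleton (plc p hp)).subset fun v hv => ?_, ?_⟩
  · by_contra h
    exact hv (h1 v h)
  · rw [finsum_eq_single _ (plc p hp) fun v hv => by rw [h1 v hv, WithZero.log_one, mul_zero]]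
    rw [HeightOneSpectrum.valuation_of_algebraMap,
      HeightOneSpectrum.intValuation_singleton _ hp.ne_zero rfl, WithZero.log_exp, dgv_plc,
      RatFunc.intDegree_polynomial]
    ring

theorem PF_poly (p : F[X]) (hp : p ≠ 0) : PF (algebraMap F[X] (RatFunc F) p) := by
  revert hp
  refine UniqueFactorizationMonoid.induction_on_prime p (fun h => absurd rfl h) ?_ ?_
  · intro u hu _
    refine PF_one (fun v => ?_) ?_
    · rw [HeightOneSpectrum.valuation_eq_one_iff_notMem]
      exact fun h => v.isPrime.ne_top (Ideal.eq_top_of_isUnit_mem _ h hu)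
    · rw [RatFunc.intDegree_polynomial, Polynomial.natDegree_eq_zero_of_isUnit hu]
      rfl
  · intro a q ha hq h1 _
    rw [map_mul]
    exact PF_mul (RatFunc.algebraMap_ne_zero hq.ne_zero) (RatFunc.algebraMap_ne_zero ha)
      (PF_prime hq) (h1 ha)

end FFA

/-- the product formula in `F(t)` -/
theorem ffa : S_FFA := by
  intro F _ g hg
  have h1 := FFA.PF_poly g.num (RatFunc.num_ne_zero hg)
  have h2 := FFA.PF_inv (FFA.PF_poly g.denom g.denom_ne_zero)
  have h3 := FFA.PF_mul (RatFunc.algebraMap_ne_zero (RatFunc.num_ne_zero hg))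
    (inv_ne_zero (RatFunc.algebraMap_ne_zero g.denom_ne_zero)) h1 h2
  rw [← div_eq_mul_inv, RatFunc.num_div_denom] at h3
  exact h3

end Pool.Agent.Helper8.RX
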