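import Pool.Agent.Helper8.RX.Stf

/-!
# FFB: the degree of the squarefree part (helper6)
-/

set_option autoImplicit false

namespace Pool.Agent.Helper8.RX

open IsDedekindDomain Polynomial

open UniqueFactorizationMonoid in
theorem ffb : S_FFB := by
  classical
  intro F _ p hp
  have hirr : ∀ π ∈ primeFactors p, Irreducible π := fun π hπ =>
    irreducible_of_normalized_factor π (mem_primeFactors.1 hπ)
  have hdvd : ∀ π ∈ primeFactors p, π ∣ p := fun π hπ =>
    dvd_of_mem_normalizedFactors (mem_primeFactors.1 hπ)
  have hpr : ∀ π : F[X], Irreducible π → (Ideal.span {π}).IsPrime := fun π h =>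
    (Ideal.span_singleton_prime h.ne_zero).2 h.prime
  let pl : {π // π ∈ primeFactors p} → HeightOneSpectrum F[X] := fun π =>
    ⟨Ideal.span {π.1}, hpr π.1 (hirr π.1 π.2), by
      rw [Ne, Ideal.span_singleton_eq_bot]
      exact (hirr π.1 π.2).ne_zero⟩
  have hinj : Function.Injective pl := by
    intro π π' h
    have h1 : Ideal.span {π.1} = Ideal.span {π'.1} := congrArg HeightOneSpectrum.asIdeal h
    have h2 : Associated π.1 π'.1 := Ideal.span_singleton_eq_span_singleton.1 h1
    have h3 := normalize_eq_normalize h2.dvd h2.symm.dvd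
    rw [normalize_normalized_factor _ (mem_primeFactors.1 π.2),
      normalize_normalized_factor _ (mem_primeFactors.1 π'.2)] at h3
    exact Subtype.ext h3
  have hdeg : ∀ π, dgv (pl π) = π.1.natDegree := fun π =>
    finrank_quotient_span_eq_natDegree
  rw [finsum_eq_sum_of_support_subset (s := (primeFactors p).attach.image pl) _ (by
    intro v hv
    rw [Function.mem_support] at hv
    have hpv : p ∈ v.asIdeal := by
      by_contra h
      exact hv (if_neg h)
    obtain ⟨g, hg⟩ := (IsPrincipalIdealRing.principal v.asIdeal).principal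
    have hg' : v.asIdeal = Ideal.span {g} := hg
    have hg0 : g ≠ 0 := by
      rintro rfl
      apply v.ne_bot
      rw [hg', Ideal.span_singleton_eq_bot]
    have hgp : Prime g := (Ideal.span_singleton_prime hg0).1 (hg' ▸ v.isPrime)
    have hgd : g ∣ p := Ideal.mem_span_singleton.1 (hg' ▸ hpv)
    obtain ⟨q, hq, hgq⟩ := exists_mem_normalizedFactors_of_dvd hp hgp.irreducible hgd
    rw [Finset.coe_image, Set.mem_image]
    refine ⟨⟨q, mem_primeFactors.2 hq⟩, Finset.mem_coe.2 (Finset.mem_attach _ _), ?_⟩
    apply HeightOneSpectrum.ext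
    rw [hg']
    exact Ideal.span_singleton_eq_span_singleton.2 hgq.symm)]
  rw [Finset.sum_image (fun a _ b _ h => hinj h)]
  have h1 : ∀ π ∈ (primeFactors p).attach,
      (if p ∈ (pl π).asIdeal then (dgv (pl π) : ℤ) else 0) = (π.1.natDegree : ℤ) := by
    intro π _
    rw [if_pos (Ideal.mem_span_singleton.2 (hdvd π.1 π.2)), hdeg]
  rw [Finset.sum_congr rfl h1, Finset.sum_attach (primeFactors p) fun π => (π.natDegree : ℤ)]
  have h2 : (radical p).natDegree = ∑ π ∈ primeFactors p, π.natDegree :=
    natDegree_prod (primeFactors p) id fun π hπ => (hirr π hπ).ne_zero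
  rw [h2]
  push_cast
  rfl

end Pool.Agent.Helper8.RX
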