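import Pool.Agent.Helper8.RC.NTerm

/-!
# The lower bound for the height on a rational curve
-/

set_option autoImplicit false

namespace Pool.Agent.Helper8.RX

open NumberField IsDedekindDomain Height Polynomial Pool.Agent.Q290.NF Pool.Agent.Helper8.RC

variable {K : Type} [Field K] [NumberField K]

theorem curve_height_ge {n : ℕ} (P : Fin n → K[X]) (h0 : ∀ i, P i ≠ 0)
    (hcop : Ideal.span (Set.range P) = ⊤) (hD : 1 ≤ dgn P) :
    ∃ C : ℝ, ∀ x : K, dgn P * logHeight₁ x ≤ logHeight (fun i => (P i).eval x) + C := by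
  classical
  have hn : 0 < n := by
    rcases Nat.eq_zero_or_pos n with rfl | h
    · exfalso
      unfold dgn at hD
      rw [Finset.univ_eq_empty, Finset.sup_empty] at hD
      simp at hD
    · exact h
  haveI : Nonempty (Fin n) := ⟨⟨0, hn⟩⟩
  obtain ⟨A, hA⟩ : ∃ A : Fin n → K[X], ∑ i, A i * P i = 1 := by
    have h1 : (1 : K[X]) ∈ Ideal.span (Set.range P) := by rw [hcop]; trivial
    obtain ⟨c, hc⟩ := Ideal.mem_span_range_iff_exists_fun.1 h1
    exact ⟨c, hc⟩
  obtain ⟨j0, hj0⟩ : ∃ j0, (P j0).natDegree = dgn P := by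
    obtain ⟨j, -, hj⟩ := Finset.exists_mem_eq_sup Finset.univ Finset.univ_nonempty
      (fun i : Fin n => (P i).natDegree)
    exact ⟨j, hj.symm⟩
  obtain ⟨D, hDe⟩ : ∃ D, D = dgn P := ⟨_, rfl⟩
  rw [← hDe] at hj0 hD ⊢
  obtain ⟨M0, hM0⟩ : ∃ M0, M0 = Finset.univ.sup (fun i => (A i).natDegree) := ⟨_, rfl⟩
  have hAM : ∀ i, (A i).natDegree ≤ M0 := fun i => by
    rw [hM0]
    exact Finset.le_sup (f := fun i => (A i).natDegree) (Finset.mem_univ i)
  obtain ⟨M, hM⟩ : ∃ M, M = D + M0 := ⟨_, rfl⟩
  have hPD : ∀ i, (P i).natDegree ≤ D := fun i => by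
    rw [hDe]
    exact Finset.le_sup (f := fun i => (P i).natDegree) (Finset.mem_univ i)
  obtain ⟨Q, hQ⟩ : ∃ Q : K[X], Q = X ^ (M + D) / P j0 := ⟨_, rfl⟩
  obtain ⟨R, hR⟩ : ∃ R : K[X], R = X ^ (M + D) % P j0 := ⟨_, rfl⟩
  have hdiv : P j0 * Q + R = X ^ (M + D) := by
    rw [hQ, hR]
    exact EuclideanDomain.div_add_mod _ _
  have hRd : R.natDegree < D := by
    rw [hR, ← hj0]
    exact natDegree_mod_lt _ (by omega)
  have hQd : Q.natDegree ≤ M := by
    rcases eq_or_ne Q 0 with h | h
    · rw [h, natDegree_zero]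
      exact Nat.zero_le _
    · have h1 : (P j0 * Q).natDegree = (P j0).natDegree + Q.natDegree := natDegree_mul (h0 j0) h
      have h2 : P j0 * Q = X ^ (M + D) - R := by rw [← hdiv]; ring
      have h3 : (X ^ (M + D) - R).natDegree ≤ M + D := by
        refine (natDegree_sub_le _ _).trans (max_le ?_ (by omega))
        exact natDegree_X_pow_le _
      rw [← h2, h1] at h3
      omega
  obtain ⟨B, hB⟩ : ∃ B : Fin n → K[X], B = fun i => R * A i + if i = j0 then Q else 0 := ⟨_, rfl⟩
  have hBM : ∀ i, (B i).natDegree ≤ M := by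
    intro i
    rw [hB]
    refine (natDegree_add_le _ _).trans (max_le ?_ ?_)
    · refine natDegree_mul_le.trans ?_
      have := hAM i
      omega
    · split_ifs
      · exact hQd
      · rw [natDegree_zero]
        exact Nat.zero_le _
  have hBs : ∑ i, B i * P i = X ^ (M + D) := by
    rw [hB]
    simp only [add_mul, Finset.sum_add_distrib, ite_mul, zero_mul, Finset.sum_ite_eq',
      Finset.mem_univ, if_true]
    rw [← hdiv]
    have : ∑ i, R * A i * P i = R := by
      simp only [mul_assoc]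
      rw [← Finset.mul_sum, hA, mul_one]
    rw [this]
    ring
  obtain ⟨C, hC⟩ := logHeight_eval_ge' (K := K) (ι := Fin 2) (ι' := Fin n) (M := M) (N := D)
    (q := fun a : Fin 2 × Fin n => if a.1 = 0 then hom M (B a.2) else hom M (A a.2)) (by
      rintro ⟨i, j⟩
      dsimp only
      split_ifs
      · exact hom_homogeneous M _
      · exact hom_homogeneous M _)
  refine ⟨-C, fun x => ?_⟩
  have h1 := hC (fun j : Fin n => hom D (P j)) (x := ![x, 1]) (by
    intro k
    fin_cases k
    · simp only [Fin.zero_eta, if_true]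
      have e1 : ∀ j, MvPolynomial.eval ![x, 1] (hom M (B j)) = (B j).eval x :=
        fun j => hom_eval (hBM j) x
      have e2 : ∀ j, MvPolynomial.eval ![x, 1] (hom D (P j)) = (P j).eval x :=
        fun j => hom_eval (hPD j) x
      simp only [e1, e2]
      have e3 := congrArg (fun Q : K[X] => Q.eval x) hBs
      simp only [eval_finset_sum, eval_mul, eval_pow, eval_X] at e3
      rw [e3]
      simp
    · have e1 : ∀ j, MvPolynomial.eval ![x, 1] (hom M (A j)) = (A j).eval x :=
        fun j => hom_eval ((hAM j).trans (by omega)) x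
      have e2 : ∀ j, MvPolynomial.eval ![x, 1] (hom D (P j)) = (P j).eval x :=
        fun j => hom_eval (hPD j) x
      have e3 := congrArg (fun Q : K[X] => Q.eval x) hA
      simp only [eval_finset_sum, eval_mul, eval_one] at e3
      simp [e1, e2, e3])
  have h2 : (fun j : Fin n => MvPolynomial.eval ![x, 1] (hom D (P j))) =
      fun i => (P i).eval x := by
    funext j
    exact hom_eval (hPD j) x
  rw [h2, ← logHeight₁_eq_logHeight] at h1
  linarith

end Pool.Agent.Helper8.RX
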