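import Pool.Agent.Helper8.RX.Sts

/-!
# INST: specialisation of finitely generated subalgebras of subfields of `F(u_i)` (helper67)
-/

set_option autoImplicit false

namespace Pool.Agent.Helper8.RX

open MvPolynomial

section

variable {F : Type} [Field F] {σ : Type}

/-- the graph of the specialisation at `u` -/
noncomputable def instT (u : σ → F) : Subalgebra F (FractionRing (MvPolynomial σ F) × F) where
  carrier := {z | ∃ a c : MvPolynomial σ F, eval u c ≠ 0 ∧
    z.1 * algebraMap (MvPolynomial σ F) (FractionRing (MvPolynomial σ F)) c =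
      algebraMap (MvPolynomial σ F) (FractionRing (MvPolynomial σ F)) a ∧
    z.2 * eval u c = eval u a}
  mul_mem' := by
    rintro z w ⟨a, c, hc, h1, h2⟩ ⟨a', c', hc', h1', h2'⟩
    refine ⟨a * a', c * c', ?_, ?_, ?_⟩
    · rw [map_mul]
      exact mul_ne_zero hc hc'
    · rw [map_mul, map_mul, ← h1, ← h1', Prod.fst_mul]
      ring
    · rw [map_mul, map_mul, ← h2, ← h2', Prod.snd_mul]
      ring
  add_mem' := by
    rintro z w ⟨a, c, hc, h1, h2⟩ ⟨a', c', hc', h1', h2'⟩
    refine ⟨a * c' + a' * c, c * c', ?_, ?_, ?_⟩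
    · rw [map_mul]
      exact mul_ne_zero hc hc'
    · rw [map_mul, map_add, map_mul, map_mul, ← h1, ← h1', Prod.fst_add]
      ring
    · rw [map_mul, map_add, map_mul, map_mul, ← h2, ← h2', Prod.snd_add]
      ring
  algebraMap_mem' := by
    intro r
    refine ⟨C r, 1, ?_, ?_, ?_⟩
    · rw [map_one]
      exact one_ne_zero
    · rw [map_one, mul_one]
      exact IsScalarTower.algebraMap_apply F (MvPolynomial σ F) (FractionRing (MvPolynomial σ F)) r
    · rw [map_one, mul_one, eval_C]
      rfl

theorem instT_unique {u : σ → F} {z w : FractionRing (MvPolynomial σ F) × F} (hz : z ∈ instT u)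
    (hw : w ∈ instT u) (h : z.1 = w.1) : z.2 = w.2 := by
  obtain ⟨a, c, hc, h1, h2⟩ := hz
  obtain ⟨a', c', hc', h1', h2'⟩ := hw
  have h3 : a * c' = a' * c := by
    apply IsFractionRing.injective (MvPolynomial σ F) (FractionRing (MvPolynomial σ F))
    rw [map_mul, map_mul, ← h1, ← h1', h]
    ring
  have h4 := congrArg (eval u) h3
  rw [map_mul, map_mul, ← h2, ← h2'] at h4
  have h5 : (z.2 - w.2) * (eval u c * eval u c') = 0 := by linear_combination h4
  exact sub_eq_zero.1 ((mul_eq_zero.1 h5).resolve_right (mul_ne_zero hc hc'))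

end

theorem inst : S_INST := by
  intro F _ _ σ k _ _ ι s
  classical
  obtain ⟨b, hb⟩ := IsLocalization.exist_integer_multiples_of_finset
    (nonZeroDivisors (MvPolynomial σ F)) (s.image ι)
  obtain ⟨u, hu⟩ : ∃ u : σ → F, eval u (b : MvPolynomial σ F) ≠ 0 := by
    by_contra h
    push Not at h
    refine nonZeroDivisors.ne_zero b.2 (MvPolynomial.funext fun u => ?_)
    rw [h u, map_zero]
  let f : instT u →ₐ[F] FractionRing (MvPolynomial σ F) :=
    (AlgHom.fst F (FractionRing (MvPolynomial σ F)) F).comp (instT u).val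
  have hf : Function.Injective f := by
    intro z w h
    exact Subtype.ext (Prod.ext h (instT_unique z.2 w.2 h))
  have hs : Algebra.adjoin F (s : Set k) ≤ f.range.comap ι := by
    refine Algebra.adjoin_le ?_
    intro x hx
    obtain ⟨a, ha⟩ := hb (ι x) (Finset.mem_image_of_mem ι hx)
    refine ⟨⟨(ι x, eval u a / eval u (b : MvPolynomial σ F)), a, b, hu, ?_, ?_⟩, rfl⟩
    · rw [ha, mul_comm]
      exact (Submonoid.smul_def b (ι x)).trans (Algebra.smul_def _ _) |>.symm
    · exact div_mul_cancel₀ _ hu
  let g : Algebra.adjoin F (s : Set k) →ₐ[F] f.range :=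
    AlgHom.codRestrict (ι.comp (Subalgebra.val _)) f.range fun x => hs x.2
  exact ⟨(((AlgHom.snd F (FractionRing (MvPolynomial σ F)) F).comp (instT u).val).comp
    (AlgEquiv.ofInjective f hf).symm.toAlgHom).comp g⟩

end Pool.Agent.Helper8.RX
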