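import Pool.Agent.Helper8.RX.Stm
import Pool.Agent.Helper8.RX.HtLow

/-!
# Parameters with few bad primes
-/

set_option autoImplicit false

namespace Pool.Agent.Helper8.RX

open NumberField IsDedekindDomain Height Polynomial Pool.Agent.Q290.NF Pool.Agent.Helper8.RC

variable {K : Type} [Field K] [NumberField K]

theorem ht_bound {E : Set K} (hE : E.Finite) : ∃ B : ℝ, ∀ x ∈ E, logHeight₁ x < B := by
  obtain ⟨B, hB⟩ := (hE.image (fun x : K => logHeight₁ x)).bddAbove
  exact ⟨B + 1, fun x hx => lt_of_le_of_lt (hB ⟨x, hx, rfl⟩) (lt_add_one B)⟩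

/-- the zeros of `T(x)` -/
theorem zeros_le {T : K[X]} : ∃ C : ℝ, ∀ x : K, T.eval x ≠ 0 →
    wt (fun v : HeightOneSpectrum (𝓞 K) => v.valuation K (T.eval x) < 1) ≤
      T.natDegree * logHeight₁ x + C := by
  obtain ⟨C, hC⟩ := poly_height_le (K := K) (P := T) le_rfl
  refine ⟨C, fun x hx => ?_⟩
  have := (zero_wt' hx).trans (hC x)
  linarith

theorem zeros_mul {a b : K} (ha : a ≠ 0) (hb : b ≠ 0) :
    wt (fun v : HeightOneSpectrum (𝓞 K) => v.valuation K (a * b) < 1) ≤
      wt (fun v : HeightOneSpectrum (𝓞 K) => v.valuation K a < 1) +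
      wt (fun v : HeightOneSpectrum (𝓞 K) => v.valuation K b < 1) := by
  refine (wt_mono (Q := fun v : HeightOneSpectrum (𝓞 K) => v.valuation K a < 1 ∨
      v.valuation K b < 1) ((fin_zero ha).union (fin_zero hb)) ?_).trans
    (wt_or_le (fin_zero ha) (fin_zero hb))
  intro v hv
  by_contra hcon
  rw [not_or, not_lt, not_lt] at hcon
  rw [map_mul] at hv
  exact absurd hv (not_lt.2 (hcon.1.trans (le_mul_of_one_le_right' hcon.2)))

/-- the weight of the poles, if infinity is counted -/
noncomputable def pol (b : Bool) (x : K) : ℝ :=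
  if b then wt (fun v : HeightOneSpectrum (𝓞 K) => 1 < v.valuation K x) else 0

/-- `1` if infinity is counted -/
def one (b : Bool) : ℕ := if b then 1 else 0

theorem pol_le (b : Bool) (x : K) : pol b x ≤ one b * logHeight₁ x := by
  unfold pol one
  cases b
  · simp
  · simpa using pole_le x

theorem low_core (hSPL2 : S_SPL2) (hSPL1 : S_SPL1) (hGAIN : S_GAIN) (hAPP : S_APP)
    (S : K[X]) (hS : Squarefree S) (b : Bool) (hq : 2 ≤ S.natDegree + one b) :
    ∃ C : ℝ, ∀ B : ℝ, ∃ s : K, B ≤ logHeight₁ s ∧ S.eval s ≠ 0 ∧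
      wt (fun v : HeightOneSpectrum (𝓞 K) => v.valuation K (S.eval s) < 1) + pol b s ≤
        ((S.natDegree : ℝ) + one b - 2) * logHeight₁ s + C := by
  classical
  have hS0 : S ≠ 0 := hS.ne_zero
  have hE : {x : K | S.eval x = 0}.Finite := by
    refine (S.roots.toFinset.finite_toSet).subset fun x hx => ?_
    rw [Finset.mem_coe, Multiset.mem_toFinset, mem_roots hS0]
    exact hx
  obtain ⟨B0, hB0⟩ := ht_bound hE
  have hne : ∀ s : K, B0 ≤ logHeight₁ s → S.eval s ≠ 0 := fun s hs h =>
    absurd (hB0 s h) (not_lt.2 hs)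
  by_cases hI : ∃ G : K[X], G ∣ S ∧ 1 ≤ G.natDegree ∧ ∀ x : K, G.eval x ≠ 0
  · obtain ⟨G, ⟨T, hT⟩, hG1, hGr⟩ := hI
    have hG0 : G ≠ 0 := by
      rintro rfl
      rw [natDegree_zero] at hG1
      omega
    have hT0 : T ≠ 0 := by
      rintro rfl
      rw [mul_zero] at hT
      exact hS0 hT
    have hGs : Squarefree G := hS.squarefree_of_dvd ⟨T, hT⟩
    have hdeg : S.natDegree = G.natDegree + T.natDegree := by
      rw [hT, natDegree_mul hG0 hT0]
    obtain ⟨v₀, C1, h1⟩ := hAPP K G hG1 hGs hGr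
    obtain ⟨C2, h2⟩ := zeros_le (T := T)
    obtain ⟨C3, h3⟩ := poly_height_le (K := K) (P := G) le_rfl
    refine ⟨C1 + C2 + C3 + ell v₀, fun B => ?_⟩
    obtain ⟨s, hs1, hs2⟩ := h1 (max B B0)
    have hSs := hne s ((le_max_right _ _).trans hs1)
    refine ⟨s, (le_max_left _ _).trans hs1, hSs, ?_⟩
    rw [hT, eval_mul] at hSs ⊢
    have hGs0 : G.eval s ≠ 0 := left_ne_zero_of_mul hSs
    have hTs0 : T.eval s ≠ 0 := right_ne_zero_of_mul hSs
    have a1 := zeros_mul hGs0 hTs0
    have a2 := h2 s hTs0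
    have a3 := hGAIN K (G.eval s) hGs0 v₀
    have a4 := h3 s
    have a5 := pol_le b s
    rw [← hT, hdeg]
    push_cast
    linarith
  · push Not at hI
    have hroot : ∀ T : K[X], T ∣ S → 1 ≤ T.natDegree → ∃ a : K, T.eval a = 0 := fun T h1 h2 => hI T h1 h2
    by_cases hS1 : 1 ≤ S.natDegree
    · obtain ⟨α, hα⟩ := hroot S dvd_rfl hS1
      obtain ⟨T, hT⟩ := dvd_iff_isRoot.2 (show IsRoot S α from hα)
      have hT0 : T ≠ 0 := by
        rintro rfl
        rw [mul_zero] at hT
        exact hS0 hT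
      have hdeg : S.natDegree = 1 + T.natDegree := by
        rw [hT, natDegree_mul (X_sub_C_ne_zero α) hT0, natDegree_X_sub_C]
      by_cases hT1 : 1 ≤ T.natDegree
      · obtain ⟨β, hβ⟩ := hroot T ⟨X - C α, by rw [hT]; ring⟩ hT1
        obtain ⟨U, hU⟩ := dvd_iff_isRoot.2 (show IsRoot T β from hβ)
        have hαβ : α ≠ β := by
          intro h
          have h1 : (X - C α) * (X - C α) ∣ S := ⟨U, by rw [hT, hU, ← h]; ring⟩
          have h2 := hS _ h1
          have h3 := natDegree_eq_zero_of_isUnit h2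
          rw [natDegree_X_sub_C] at h3
          exact one_ne_zero h3
        have hU0 : U ≠ 0 := by
          rintro rfl
          rw [mul_zero] at hU
          exact hT0 hU
        have hdegT : T.natDegree = 1 + U.natDegree := by
          rw [hU, natDegree_mul (X_sub_C_ne_zero β) hU0, natDegree_X_sub_C]
        obtain ⟨C1, h1⟩ := hSPL2 K α β hαβ
        obtain ⟨C2, h2⟩ := zeros_le (T := U)
        refine ⟨C1 + C1 + C2, fun B => ?_⟩
        obtain ⟨s, hs1, hs2, hs3⟩ := h1 (max B B0)
        have hSs := hne s ((le_max_right _ _).trans hs1)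
        refine ⟨s, (le_max_left _ _).trans hs1, hSs, ?_⟩
        have e : S.eval s = (s - α) * ((s - β) * U.eval s) := by
          rw [hT, hU]
          simp
        rw [e] at hSs ⊢
        have b1 : s - α ≠ 0 := left_ne_zero_of_mul hSs
        have b2 : (s - β) * U.eval s ≠ 0 := right_ne_zero_of_mul hSs
        have b3 : s - β ≠ 0 := left_ne_zero_of_mul b2
        have b4 : U.eval s ≠ 0 := right_ne_zero_of_mul b2
        have a1 := zeros_mul b1 b2
        have a2 := zeros_mul b3 b4
        have a3 := h2 s b4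
        have a5 := pol_le b s
        rw [hdeg, hdegT]
        push_cast
        linarith
      · have hb : b = true := by
          by_contra hb
          rw [Bool.not_eq_true] at hb
          rw [hb] at hq
          unfold one at hq
          simp at hq
          omega
        have hTd : T.natDegree = 0 := by omega
        rw [natDegree_eq_zero] at hTd
        obtain ⟨c, hc⟩ := hTd
        obtain ⟨C1, h1⟩ := hSPL1 K α
        obtain ⟨C2, h2⟩ := zeros_le (T := T)
        refine ⟨C1 + C1 + C2, fun B => ?_⟩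
        obtain ⟨s, hs1, hs2, hs3⟩ := h1 (max B B0)
        have hSs := hne s ((le_max_right _ _).trans hs1)
        refine ⟨s, (le_max_left _ _).trans hs1, hSs, ?_⟩
        have e : S.eval s = (s - α) * T.eval s := by
          rw [hT]
          simp
        have hTd : T.natDegree = 0 := by omega
        rw [e] at hSs ⊢
        have b1 : s - α ≠ 0 := left_ne_zero_of_mul hSs
        have b4 : T.eval s ≠ 0 := right_ne_zero_of_mul hSs
        have a1 := zeros_mul b1 b4
        have a3 := h2 s b4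
        rw [hTd] at a3
        rw [hdeg, hTd, hb]
        have e1 : ((1 + 0 : ℕ) : ℝ) + (one true : ℕ) - 2 = 0 := by
          unfold one
          norm_num
        rw [e1]
        unfold pol
        rw [if_pos rfl]
        push_cast at a3
        linarith
    · exfalso
      have h1 : one b ≤ 1 := by
        unfold one
        split_ifs <;> omega
      omega

/-- the number of the points of the curve on the coordinate hyperplanes is at least `2` -/
theorem two_le {n : ℕ} (P : Fin n → K[X]) (h0 : ∀ i, P i ≠ 0)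
    (hcop : Ideal.span (Set.range P) = ⊤) (hD : 1 ≤ dgn P) : 2 ≤ ptn P := by
  classical
  obtain ⟨S, hS⟩ : ∃ S : K[X], S = UniqueFactorizationMonoid.radical (∏ i, P i) := ⟨_, rfl⟩
  have hP0 : ∏ i, P i ≠ 0 := Finset.prod_ne_zero_iff.2 fun i _ => h0 i
  have hSq : Squarefree S := by
    rw [hS]
    exact UniqueFactorizationMonoid.squarefree_radical
  obtain ⟨j, hj⟩ : ∃ j, 1 ≤ (P j).natDegree := by
    by_contra hcon
    push Not at hcon
    have : dgn P ≤ 0 := Finset.sup_le fun i _ => Nat.lt_one_iff.1 (hcon i) |>.le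
    omega
  have hr1 : 1 ≤ S.natDegree := by
    have hi : ¬ IsUnit (P j) := by
      intro h
      have := natDegree_eq_zero_of_isUnit h
      omega
    obtain ⟨p, hp, hpi⟩ := WfDvdMonoid.exists_irreducible_factor hi (h0 j)
    have h1 : p ∣ S := by
      rw [hS]
      exact (UniqueFactorizationMonoid.dvd_radical_iff_of_irreducible hp hP0).2
        (hpi.trans (Finset.dvd_prod_of_mem P (Finset.mem_univ j)))
    exact le_trans hp.natDegree_pos (natDegree_le_of_dvd h1 hSq.ne_zero)
  by_cases hinf : ∀ i j, (P i).natDegree = (P j).natDegree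
  · -- all degrees are equal; one cusp would be a common zero
    by_contra hcon
    have hr : S.natDegree = 1 := by
      unfold ptn at hcon
      rw [if_pos hinf, ← hS] at hcon
      omega
    have hirr : Irreducible S := by
      refine irreducible_of_degree_eq_one ?_
      rw [degree_eq_natDegree hSq.ne_zero, hr]
      rfl
    have hdvd : ∀ i, S ∣ P i := by
      intro i
      have hi : ¬ IsUnit (P i) := by
        intro h
        have := natDegree_eq_zero_of_isUnit h
        have := hinf i j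
        omega
      obtain ⟨p, hp, hpi⟩ := WfDvdMonoid.exists_irreducible_factor hi (h0 i)
      have h1 : p ∣ S := by
        rw [hS]
        exact (UniqueFactorizationMonoid.dvd_radical_iff_of_irreducible hp hP0).2
          (hpi.trans (Finset.dvd_prod_of_mem P (Finset.mem_univ i)))
      exact ((hp.associated_of_dvd hirr h1).symm.dvd).trans hpi
    have h1 : Ideal.span (Set.range P) ≤ Ideal.span {S} := by
      rw [Ideal.span_le]
      rintro _ ⟨i, rfl⟩
      exact Ideal.mem_span_singleton.2 (hdvd i)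
    rw [hcop, top_le_iff, Ideal.span_singleton_eq_top] at h1
    exact hirr.not_isUnit h1
  · unfold ptn
    rw [if_neg hinf, ← hS]
    omega

/-- parameters of large height with few bad primes -/
theorem low (hUPP : S_UPP) (hSPL2 : S_SPL2) (hSPL1 : S_SPL1) (hGAIN : S_GAIN) (hAPP : S_APP)
    {n : ℕ} (P : Fin n → K[X]) (h0 : ∀ i, P i ≠ 0)
    (hcop : Ideal.span (Set.range P) = ⊤) (hD : 1 ≤ dgn P) :
    ∃ C : ℝ, ∀ B : ℝ, ∃ s : K, B ≤ logHeight₁ s ∧ (∀ i, (P i).eval s ≠ 0) ∧
      wt (fun v => Rd (fun i => (P i).eval s) v) ≤ ((ptn P : ℝ) - 2) * logHeight₁ s + C := by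
  classical
  have hq := two_le P h0 hcop hD
  have hP0 : ∏ i, P i ≠ 0 := Finset.prod_ne_zero_iff.2 fun i _ => h0 i
  obtain ⟨C1, h1⟩ := hUPP K n P h0
  obtain ⟨b, hb1, hb2⟩ : ∃ b : Bool, (ptn P = (UniqueFactorizationMonoid.radical
      (∏ i, P i)).natDegree + one b) ∧ ∀ s : K, (if ∀ i j, (P i).natDegree = (P j).natDegree then 0
      else wt (fun v : HeightOneSpectrum (𝓞 K) => 1 < v.valuation K s)) = pol b s := by
    by_cases h : ∀ i j, (P i).natDegree = (P j).natDegree
    · refine ⟨false, ?_, fun s => ?_⟩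
      · unfold ptn one
        rw [if_pos h]
        simp
      · unfold pol
        rw [if_pos h]
        simp
    · refine ⟨true, ?_, fun s => ?_⟩
      · unfold ptn one
        rw [if_neg h]
        simp
      · unfold pol
        rw [if_neg h]
        simp
  obtain ⟨C2, h2⟩ := low_core hSPL2 hSPL1 hGAIN hAPP
    (UniqueFactorizationMonoid.radical (∏ i, P i))
    UniqueFactorizationMonoid.squarefree_radical b (by rw [← hb1]; exact hq)
  refine ⟨C1 + C2, fun B => ?_⟩
  obtain ⟨s, hs1, hs2, hs3⟩ := h2 B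
  have hPs : ∀ i, (P i).eval s ≠ 0 := by
    intro i h
    apply hs2
    have h3 : (X - C s) ∣ P i := dvd_iff_isRoot.2 h
    have h4 : (X - C s) ∣ UniqueFactorizationMonoid.radical (∏ i, P i) :=
      (UniqueFactorizationMonoid.dvd_radical_iff_of_irreducible (irreducible_X_sub_C s) hP0).2
        (h3.trans (Finset.dvd_prod_of_mem P (Finset.mem_univ i)))
    exact dvd_iff_isRoot.1 h4
  refine ⟨s, hs1, hPs, ?_⟩
  have a := h1 s hPs
  have e := hb2 s
  have e1 : (ptn P : ℝ) = ((UniqueFactorizationMonoid.radical (∏ i, P i)).natDegree : ℝ) +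
      (one b : ℕ) := by
    rw [hb1]
    push_cast
    rfl
  rw [e1]
  rw [e] at a
  linarith

/-- the exponent of an inequality on the curve is at least `D / (q - 2)` -/
theorem lower (hUPP : S_UPP) (hSPL2 : S_SPL2) (hSPL1 : S_SPL1) (hGAIN : S_GAIN) (hAPP : S_APP)
    {n : ℕ} (P : Fin n → K[X]) (h0 : ∀ i, P i ≠ 0)
    (hcop : Ideal.span (Set.range P) = ⊤) (hD : 1 ≤ dgn P) (κ : ℝ) (hκ : 0 ≤ κ) (C : ℝ)
    (E : Set K) (hE : E.Finite)
    (h : ∀ x : K, x ∉ E → (∀ i, (P i).eval x ≠ 0) → logHeight (fun i => (P i).eval x) ≤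
      κ * wt (fun v => Rd (fun i => (P i).eval x) v) + C) :
    (dgn P : ℝ) ≤ κ * ((ptn P : ℝ) - 2) := by
  obtain ⟨C1, h1⟩ := low hUPP hSPL2 hSPL1 hGAIN hAPP P h0 hcop hD
  obtain ⟨C2, h2⟩ := curve_height_ge P h0 hcop hD
  obtain ⟨B0, hB0⟩ := ht_bound hE
  by_contra hcon
  push Not at hcon
  obtain ⟨δ, hδ⟩ : ∃ δ : ℝ, δ = (dgn P : ℝ) - κ * ((ptn P : ℝ) - 2) := ⟨_, rfl⟩
  have hδ0 : 0 < δ := by rw [hδ]; linarith
  obtain ⟨s, hs1, hs2, hs3⟩ := h1 (max B0 ((C + κ * C1 + C2 + 1) / δ))
  have hsE : s ∉ E := fun hs => absurd (hB0 s hs) (not_lt.2 ((le_max_left _ _).trans hs1))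
  have a := h s hsE hs2
  have b := h2 s
  have c := mul_le_mul_of_nonneg_left hs3 hκ
  have d : (C + κ * C1 + C2 + 1) / δ ≤ logHeight₁ s := (le_max_right _ _).trans hs1
  rw [div_le_iff₀ hδ0] at d
  have e : logHeight₁ s * δ = dgn P * logHeight₁ s - κ * (((ptn P : ℝ) - 2) * logHeight₁ s) := by
    rw [hδ]
    ring
  nlinarith

end Pool.Agent.Helper8.RX
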