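import Pool.Agent.Helper8.RX.Stm

set_option autoImplicit false

/-!
# The split cusps
-/

namespace Pool.Agent.Helper8.RX

open NumberField IsDedekindDomain Height Polynomial Pool.Agent.Q290.NF Pool.Agent.Helper8.RC

section

variable {K : Type} [Field K] [NumberField K]

theorem val_two_le (v : HeightOneSpectrum (𝓞 K)) : v.valuation K (2 : K) ≤ 1 := by
  have h : v.valuation K (algebraMap (𝓞 K) K 2) ≤ 1 := v.valuation_le_one (K := K) (2 : 𝓞 K)
  rwa [map_ofNat] at h

theorem val_two_pow_le (v : HeightOneSpectrum (𝓞 K)) (k : ℕ) :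
    v.valuation K ((2 : K) ^ k) ≤ 1 := by
  rw [map_pow]
  exact pow_le_one₀ zero_le (val_two_le v)

theorem height_two_pos : 0 < logHeight₁ (2 : K) := by
  rw [height_two]
  have h1 : (0 : ℝ) < Module.finrank ℚ K := by exact_mod_cast Module.finrank_pos
  have h2 : 0 < Real.log 2 := Real.log_pos (by norm_num)
  positivity

theorem exists_pow (c : ℝ) : ∃ k : ℕ, 1 ≤ k ∧ c ≤ logHeight₁ ((2 : K) ^ k) := by
  obtain ⟨n, hn⟩ := exists_nat_ge (c / logHeight₁ (2 : K))
  refine ⟨n + 1, by omega, ?_⟩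
  rw [logHeight₁_pow]
  have h := height_two_pos (K := K)
  rw [div_le_iff₀ h] at hn
  push_cast
  nlinarith

theorem two_pow_ne_one {k : ℕ} (hk : 1 ≤ k) : (2 : K) ^ k ≠ 1 := by
  intro h
  have h1 : ((2 ^ k : ℕ) : K) = ((1 : ℕ) : K) := by
    push_cast
    exact h
  have h2 := Nat.cast_injective h1
  have h3 : 2 ≤ 2 ^ k := by
    calc 2 = 2 ^ 1 := by norm_num
      _ ≤ 2 ^ k := Nat.pow_le_pow_right (by norm_num) hk
  omega

end

theorem spl1 : S_SPL1 := by
  intro K _ _ α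
  obtain ⟨C, hC⟩ : ∃ C : ℝ, C = wt (fun v : HeightOneSpectrum (𝓞 K) => v.valuation K (2 : K) < 1) +
      wt (fun v : HeightOneSpectrum (𝓞 K) => 1 < v.valuation K α) := ⟨_, rfl⟩
  have n1 := wt_nonneg (fun v : HeightOneSpectrum (𝓞 K) => v.valuation K (2 : K) < 1)
  have n2 := wt_nonneg (fun v : HeightOneSpectrum (𝓞 K) => 1 < v.valuation K α)
  refine ⟨C, fun B => ?_⟩
  obtain ⟨k, hk, hkB⟩ := exists_pow (K := K)
    (B + (totalWeight K * Real.log 2 + logHeight₁ α))
  refine ⟨α + 2 ^ k, ?_, ?_, ?_⟩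
  · have h := logHeight₁_sub_le (α + 2 ^ k) α
    rw [add_sub_cancel_left] at h
    linarith
  · rw [add_sub_cancel_left]
    refine (wt_mono (fin_zero (two_ne_zero (α := K))) (fun v hv => ?_)).trans
      (by rw [hC]; linarith)
    by_contra hcon
    rw [not_lt] at hcon
    rw [map_pow] at hv
    exact absurd hv (not_lt.2 (one_le_pow₀ hcon))
  · refine (wt_mono (fin_pole α) (fun v hv => ?_)).trans (by rw [hC]; linarith)
    by_contra hcon
    rw [not_lt] at hcon
    exact absurd hv (not_lt.2 (Valuation.map_add_le _ hcon (val_two_pow_le v k)))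

theorem spl2 : S_SPL2 := by
  intro K _ _ α β hab
  have hab' : α - β ≠ 0 := sub_ne_zero.2 hab
  obtain ⟨C, hC⟩ : ∃ C : ℝ, C = wt (fun v : HeightOneSpectrum (𝓞 K) => v.valuation K (2 : K) < 1) +
      wt (fun v : HeightOneSpectrum (𝓞 K) => v.valuation K (α - β) < 1) := ⟨_, rfl⟩
  have n1 := wt_nonneg (fun v : HeightOneSpectrum (𝓞 K) => v.valuation K (2 : K) < 1)
  have n2 := wt_nonneg (fun v : HeightOneSpectrum (𝓞 K) => v.valuation K (α - β) < 1)
  refine ⟨C, fun B => ?_⟩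
  obtain ⟨k, hk, hkB⟩ := exists_pow (K := K)
    (B + (totalWeight K * Real.log 2 + totalWeight K * Real.log 2 + logHeight₁ β +
      logHeight₁ (α - β) + logHeight₁ (1 : K)))
  have hk1 := two_pow_ne_one (K := K) hk
  have hd : (1 : K) - 2 ^ k ≠ 0 := sub_ne_zero.2 (Ne.symm hk1)
  obtain ⟨s, hs⟩ : ∃ s : K, s = (α - 2 ^ k * β) / (1 - 2 ^ k) := ⟨_, rfl⟩
  have e1 : s - α = 2 ^ k * (α - β) / (1 - 2 ^ k) := by
    rw [hs]
    field_simp
    ring
  have e2 : s - β = (α - β) / (1 - 2 ^ k) := by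
    rw [hs]
    field_simp
    ring
  have hsb : s - β ≠ 0 := by
    rw [e2]
    exact div_ne_zero hab' hd
  have vd : ∀ v : HeightOneSpectrum (𝓞 K), v.valuation K ((1 : K) - 2 ^ k) ≤ 1 := fun v =>
    Valuation.map_sub_le _ (by rw [map_one]) (val_two_pow_le v k)
  have vd0 : ∀ v : HeightOneSpectrum (𝓞 K), 0 < v.valuation K ((1 : K) - 2 ^ k) := fun v =>
    zero_lt_iff.2 ((Valuation.ne_zero_iff _).2 hd)
  refine ⟨s, ?_, ?_, ?_⟩
  · have h1 : (2 : K) ^ k = 1 - (α - β) * (s - β)⁻¹ := by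
      rw [e2]
      field_simp
      ring
    have h2 := logHeight₁_sub_le (1 : K) ((α - β) * (s - β)⁻¹)
    rw [← h1] at h2
    have h3 := logHeight₁_mul_le (α - β) (s - β)⁻¹
    rw [logHeight₁_inv] at h3
    have h4 := logHeight₁_sub_le s β
    linarith
  · have hf : {v : HeightOneSpectrum (𝓞 K) | v.valuation K (2 : K) < 1 ∨
        v.valuation K (α - β) < 1}.Finite := (fin_zero (two_ne_zero (α := K))).union (fin_zero hab')
    refine (wt_mono hf (fun v hv => ?_)).trans ((wt_or_le (fin_zero (two_ne_zero (α := K)))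
      (fin_zero hab')).trans (by rw [hC]))
    by_contra hcon
    rw [not_or, not_lt, not_lt] at hcon
    obtain ⟨h1, h2⟩ := hcon
    rw [e1, map_div₀, map_mul, map_pow, div_lt_one₀ (vd0 v)] at hv
    have h3 : 1 ≤ v.valuation K (2 : K) ^ k * v.valuation K (α - β) :=
      one_le_mul (one_le_pow₀ h1) h2
    exact absurd (h3.trans_lt hv) (not_lt.2 (vd v))
  · refine (wt_mono (fin_zero hab') (fun v hv => ?_)).trans (by rw [hC]; linarith)
    rw [e2, map_div₀, div_lt_one₀ (vd0 v)] at hv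
    exact hv.trans_le (vd v)

end Pool.Agent.Helper8.RX
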