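import Pool.Agent.Helper8.RC.NTerm

/-!
# Specialisation of the constants
-/

set_option autoImplicit false

namespace Pool.Agent.Helper8.RX

open Polynomial Pool.Agent.Helper8.RC UniqueFactorizationMonoid

open Classical in
theorem dvd_rad_pow {k : Type} [Field k] (a : k[X]) (ha : a ≠ 0) :
    ∃ N : ℕ, a ∣ radical a ^ N := by
  refine ⟨(normalizedFactors a).card, ?_⟩
  have h1 : (normalizedFactors a).prod ∣ radical a ^ (normalizedFactors a).card := by
    rw [← Multiset.prod_replicate, ← Multiset.map_const']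
    have : (normalizedFactors a).prod = ((normalizedFactors a).map id).prod := by
      rw [Multiset.map_id]
    rw [this]
    refine Multiset.prod_dvd_prod_of_dvd _ _ fun p hp => ?_
    have hirr := irreducible_of_normalized_factor p hp
    exact (dvd_radical_iff_of_irreducible hirr ha).2 (dvd_of_mem_normalizedFactors hp)
  exact (prod_normalizedFactors ha).symm.dvd.trans h1

section

variable {F k : Type} [Field F] [Field k] [Algebra F k] {A : Subalgebra F k} (φ : A →ₐ[F] F)

theorem psi_inj : Function.Injective (Polynomial.mapAlgHom A.val : A[X] →ₐ[F] k[X]) := by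
  intro x y h
  exact Polynomial.map_injective (A.val : A →+* k) Subtype.val_injective h

theorem deg_eq (q : A[X]) (h0 : Polynomial.mapAlgHom A.val q ≠ 0)
    (hl : (Polynomial.mapAlgHom A.val q).leadingCoeff⁻¹ ∈ A) :
    (Polynomial.mapAlgHom φ q).natDegree = (Polynomial.mapAlgHom A.val q).natDegree ∧
      Polynomial.mapAlgHom φ q ≠ 0 := by
  have hinj : Function.Injective (A.val : A →+* k) := Subtype.val_injective
  have e1 : (Polynomial.mapAlgHom A.val q) = q.map (A.val : A →+* k) := rfl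
  have e2 : (Polynomial.mapAlgHom φ q) = q.map (φ : A →+* F) := rfl
  rw [e1] at h0 hl ⊢
  rw [e2]
  have h1 : (q.map (A.val : A →+* k)).leadingCoeff = (q.leadingCoeff : k) := by
    rw [leadingCoeff_map_of_injective hinj]
    rfl
  rw [h1] at hl
  have hq : q ≠ 0 := by
    rintro rfl
    exact h0 (Polynomial.map_zero _)
  have h2 : (q.leadingCoeff : k) ≠ 0 := by
    intro h
    exact leadingCoeff_ne_zero.2 hq (Subtype.val_injective h)
  have h3 : q.leadingCoeff * ⟨(q.leadingCoeff : k)⁻¹, hl⟩ = 1 := by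
    apply Subtype.val_injective
    exact mul_inv_cancel₀ h2
  have h4 : φ q.leadingCoeff ≠ 0 := by
    intro h
    have := congrArg φ h3
    rw [map_mul, h, zero_mul, map_one] at this
    exact zero_ne_one this
  have h5 : (q.map (φ : A →+* F)).natDegree = q.natDegree :=
    natDegree_map_of_leadingCoeff_ne_zero _ h4
  refine ⟨?_, ?_⟩
  · rw [h5, natDegree_map_eq_of_injective hinj]
  · intro h
    have h6 : (q.map (φ : A →+* F)).coeff q.natDegree = 0 := by rw [h, coeff_zero]
    rw [coeff_map] at h6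
    exact h4 h6

end

open Classical in
theorem spc {F k : Type} [Field F] [Field k] [Algebra F k]
    (h : ∀ s : Finset k, Nonempty (Algebra.adjoin F (s : Set k) →ₐ[F] F))
    {n : ℕ} (P : Fin n → k[X]) (h0 : ∀ i, P i ≠ 0) (hcop : Ideal.span (Set.range P) = ⊤)
    (hs : ∑ i, P i = 0) (G : MvPolynomial (Fin n) F) (hG : MvPolynomial.aeval P G ≠ 0) :
    ∃ P' : Fin n → F[X], (∀ i, P' i ≠ 0) ∧ Ideal.span (Set.range P') = ⊤ ∧ ∑ i, P' i = 0 ∧
      MvPolynomial.aeval P' G ≠ 0 ∧ dgn P' = dgn P ∧ ptn P' ≤ ptn P := by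
  obtain ⟨B, hB⟩ : ∃ B : Fin n → k[X], ∑ i, B i * P i = 1 := by
    have h1 : (1 : k[X]) ∈ Ideal.span (Set.range P) := by rw [hcop]; trivial
    obtain ⟨c, hc⟩ := Ideal.mem_span_range_iff_exists_fun.1 h1
    exact ⟨c, hc⟩
  have hP0 : ∏ i, P i ≠ 0 := Finset.prod_ne_zero_iff.2 fun i _ => h0 i
  obtain ⟨S, hS⟩ : ∃ S : k[X], S = radical (∏ i, P i) := ⟨_, rfl⟩
  obtain ⟨T, hT⟩ : S ∣ ∏ i, P i := by
    rw [hS]
    exact radical_dvd_self
  obtain ⟨N, U, hU⟩ : ∃ N : ℕ, (∏ i, P i) ∣ S ^ N := by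
    rw [hS]
    exact dvd_rad_pow _ hP0
  obtain ⟨R, hR⟩ : ∃ R : k[X], R = MvPolynomial.aeval P G := ⟨_, rfl⟩
  obtain ⟨L, hL⟩ : ∃ L : Finset k[X], L = Finset.univ.image P ∪ Finset.univ.image B ∪
    {S, T, U} := ⟨_, rfl⟩
  obtain ⟨s, hsd⟩ : ∃ s : Finset k, s = (L.biUnion fun Q => Q.support.image Q.coeff) ∪
    (Finset.univ.image fun i => (P i).leadingCoeff⁻¹) ∪ {R.leadingCoeff⁻¹} := ⟨_, rfl⟩
  obtain ⟨A, hA⟩ : ∃ A : Subalgebra F k, A = Algebra.adjoin F (s : Set k) := ⟨_, rfl⟩
  obtain ⟨φ⟩ : Nonempty (A →ₐ[F] F) := by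
    rw [hA]
    exact h s
  have hsA : ∀ x ∈ s, x ∈ A := fun x hx => by
    rw [hA]
    exact Algebra.subset_adjoin hx
  have hlift : ∀ Q ∈ L, ∃ q : A[X], Polynomial.mapAlgHom A.val q = Q := by
    intro Q hQ
    have h1 : Q ∈ lifts (A.val : A →+* k) := by
      rw [lifts_iff_coeff_lifts]
      intro m
      by_cases hm : Q.coeff m = 0
      · exact ⟨0, by rw [hm]; rfl⟩
      · refine ⟨⟨Q.coeff m, hsA _ ?_⟩, rfl⟩
        rw [hsd, Finset.mem_union, Finset.mem_union, Finset.mem_biUnion]
        left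
        left
        exact ⟨Q, hQ, Finset.mem_image.2 ⟨m, mem_support_iff.2 hm, rfl⟩⟩
    obtain ⟨q, hq⟩ := (mem_lifts Q).1 h1
    exact ⟨q, hq⟩
  have hPl : ∀ i, ∃ q : A[X], Polynomial.mapAlgHom A.val q = P i := fun i => hlift _ (by
    rw [hL]
    simp)
  have hBl : ∀ i, ∃ q : A[X], Polynomial.mapAlgHom A.val q = B i := fun i => hlift _ (by
    rw [hL]
    simp)
  choose p hp using hPl
  choose b hb using hBl
  obtain ⟨σ, hσ⟩ := hlift S (by rw [hL]; simp)
  obtain ⟨τ, hτ⟩ := hlift T (by rw [hL]; simp)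
  obtain ⟨υ, hυ⟩ := hlift U (by rw [hL]; simp)
  have inj := psi_inj (F := F) (k := k) (A := A)
  have i1 : ∑ i, b i * p i = 1 := by
    apply inj
    rw [map_sum, map_one, ← hB]
    exact Finset.sum_congr rfl fun i _ => by rw [map_mul, hp, hb]
  have i2 : ∑ i, p i = 0 := by
    apply inj
    rw [map_sum, map_zero, ← hs]
    exact Finset.sum_congr rfl fun i _ => by rw [hp]
  have i3 : ∏ i, p i = σ * τ := by
    apply inj
    rw [map_prod, map_mul, hσ, hτ, ← hT]
    exact Finset.prod_congr rfl fun i _ => by rw [hp]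
  have i4 : σ ^ N = (∏ i, p i) * υ := by
    apply inj
    rw [map_mul, map_prod, map_pow, hσ, hυ, hU]
    congr 1
    exact Finset.prod_congr rfl fun i _ => by rw [hp]
  have i5 : Polynomial.mapAlgHom A.val (MvPolynomial.aeval p G) = R := by
    rw [MvPolynomial.comp_aeval_apply, hR]
    congr 1
    congr 1
    funext i
    exact hp i
  obtain ⟨P', hP'⟩ : ∃ P' : Fin n → F[X], P' = fun i => Polynomial.mapAlgHom φ (p i) := ⟨_, rfl⟩
  have hP'e : ∀ i, P' i = Polynomial.mapAlgHom φ (p i) := fun i => by rw [hP']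
  have d1 : ∀ i, (P' i).natDegree = (P i).natDegree ∧ P' i ≠ 0 := by
    intro i
    have := deg_eq φ (p i) (by rw [hp]; exact h0 i) (by
      rw [hp]
      refine hsA _ ?_
      rw [hsd]
      simp)
    rw [hp] at this
    rw [hP'e]
    exact this
  have d2 : MvPolynomial.aeval P' G ≠ 0 := by
    have := (deg_eq φ (MvPolynomial.aeval p G) (by rw [i5, hR]; exact hG) (by
      rw [i5]
      refine hsA _ ?_
      rw [hsd]
      simp)).2
    rw [MvPolynomial.comp_aeval_apply] at this
    rw [hP']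
    exact this
  have j1 : ∑ i, (Polynomial.mapAlgHom φ (b i)) * P' i = 1 := by
    have := congrArg (Polynomial.mapAlgHom φ) i1
    rw [map_sum, map_one] at this
    rw [← this]
    exact Finset.sum_congr rfl fun i _ => by rw [map_mul, hP'e]
  have j3 : ∏ i, P' i = Polynomial.mapAlgHom φ σ * Polynomial.mapAlgHom φ τ := by
    have := congrArg (Polynomial.mapAlgHom φ) i3
    rw [map_prod, map_mul] at this
    rw [← this]
    exact Finset.prod_congr rfl fun i _ => by rw [hP'e]
  have j4 : (∏ i, P' i) ∣ (Polynomial.mapAlgHom φ σ) ^ N := by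
    have := congrArg (Polynomial.mapAlgHom φ) i4
    rw [map_mul, map_prod, map_pow] at this
    refine ⟨Polynomial.mapAlgHom φ υ, ?_⟩
    rw [this]
    congr 1
    exact Finset.prod_congr rfl fun i _ => by rw [hP'e]
  have hP'0 : ∏ i, P' i ≠ 0 := Finset.prod_ne_zero_iff.2 fun i _ => (d1 i).2
  have hσ0 : Polynomial.mapAlgHom φ σ ≠ 0 := by
    intro h
    rw [h, zero_mul] at j3
    exact hP'0 j3
  have hrad : (radical (∏ i, P' i)).natDegree ≤ (radical (∏ i, P i)).natDegree := by
    have h1 : radical (∏ i, P' i) ∣ Polynomial.mapAlgHom φ σ := by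
      have h2 := radical_dvd_radical j4 (pow_ne_zero N hσ0)
      rcases Nat.eq_zero_or_pos N with hN | hN
      · rw [hN, pow_zero] at h2
        exact (h2.trans radical_dvd_self).trans (one_dvd _)
      · rw [radical_pow _ hN.ne'] at h2
        exact h2.trans radical_dvd_self
    refine (natDegree_le_of_dvd h1 hσ0).trans ?_
    rw [← hS, ← hσ]
    have e1 : (Polynomial.mapAlgHom φ σ).natDegree ≤ σ.natDegree := natDegree_map_le
    have e2 : (Polynomial.mapAlgHom A.val σ).natDegree = σ.natDegree :=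
      natDegree_map_eq_of_injective (f := (A.val : A →+* k)) Subtype.val_injective σ
    rw [e2]
    exact e1
  refine ⟨P', fun i => (d1 i).2, ?_, ?_, d2, ?_, ?_⟩
  · rw [Ideal.eq_top_iff_one, ← j1]
    exact Ideal.sum_mem _ fun i _ => Ideal.mul_mem_left _ _ (Ideal.subset_span ⟨i, rfl⟩)
  · have := congrArg (Polynomial.mapAlgHom φ) i2
    rw [map_sum, map_zero] at this
    rw [← this]
    exact Finset.sum_congr rfl fun i _ => by rw [hP'e]
  · unfold dgn
    exact Finset.sup_congr rfl fun i _ => (d1 i).1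
  · unfold ptn
    have e : (∀ i j, (P' i).natDegree = (P' j).natDegree) ↔
        ∀ i j, (P i).natDegree = (P j).natDegree := by
      simp only [(d1 _).1]
    by_cases hc : ∀ i j, (P i).natDegree = (P j).natDegree
    · rw [if_pos hc, if_pos (e.2 hc)]
      omega
    · rw [if_neg hc, if_neg (fun h => hc (e.1 h))]
      omega

end Pool.Agent.Helper8.RX
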