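import Pool.Agent.Helper8.RC.NTerm

set_option autoImplicit false

/-!
# Heights in `F(t)`: statements
-/

namespace Pool.Agent.Helper8.RX

open IsDedekindDomain Polynomial Pool.Agent.Helper8.RC

section

variable {F : Type} [Field F]

/-- the degree `[k_v : k]` of a finite place of `F(t)` -/
noncomputable def dgv (v : HeightOneSpectrum F[X]) : ℕ := Module.finrank F (F[X] ⧸ v.asIdeal)

/-- the height of a point over `F(t)`: the sum of `deg v * max_j (- ord_v z_j)` over the finite places
and infinity (`WithZero.log` of the valuation is `- ord_v`, and `intDegree` is `- ord_∞`) -/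
noncomputable def hff {n : ℕ} (z : Fin n → RatFunc F) : ℤ :=
  (∑ᶠ v : HeightOneSpectrum F[X],
    (dgv v : ℤ) * ⨆ j, WithZero.log (v.valuation (RatFunc F) (z j))) + ⨆ j, (z j).intDegree

open Classical in
/-- the sum of `deg v` over the places of `F(t)` at which the orders are not all equal -/
noncomputable def radff {n : ℕ} (z : Fin n → RatFunc F) : ℤ :=
  (∑ᶠ v : HeightOneSpectrum F[X],
    if ∃ i j, v.valuation (RatFunc F) (z i) ≠ v.valuation (RatFunc F) (z j) then (dgv v : ℤ) else 0) +
  if ∃ i j, (z i).intDegree ≠ (z j).intDegree then 1 else 0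

end

/-- the product formula in `F(t)` -/
def S_FFA : Prop :=
  ∀ (F : Type) [Field F] (g : RatFunc F), g ≠ 0 →
    {v : HeightOneSpectrum F[X] | v.valuation (RatFunc F) g ≠ 1}.Finite ∧
    (∑ᶠ v : HeightOneSpectrum F[X], (dgv v : ℤ) * WithZero.log (v.valuation (RatFunc F) g)) +
      g.intDegree = 0

open Classical in
/-- the degree of the squarefree part -/
def S_FFB : Prop :=
  ∀ (F : Type) [Field F] (p : F[X]), p ≠ 0 →
    (∑ᶠ v : HeightOneSpectrum F[X], if p ∈ v.asIdeal then (dgv v : ℤ) else 0) =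
      ((UniqueFactorizationMonoid.radical p).natDegree : ℤ)

/-- coprime coordinates -/
def S_FFC : Prop :=
  ∀ (F : Type) [Field F] (n : ℕ), 0 < n → ∀ z : Fin n → RatFunc F, (∀ i, z i ≠ 0) →
    ∃ (g : RatFunc F) (P : Fin n → F[X]), g ≠ 0 ∧
      (∀ i, z i = g * algebraMap F[X] (RatFunc F) (P i)) ∧ Ideal.span (Set.range P) = ⊤ ∧
      hff z = dgn P ∧ radff z = ptn P

end Pool.Agent.Helper8.RX
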