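import Pool.Agent.Helper8.RC.NTerm

set_option autoImplicit false

/-!
# Statements: the exact exponent on a rational curve
-/

namespace Pool.Agent.Helper8.RX

open NumberField IsDedekindDomain Height Polynomial Pool.Agent.Q290.NF Pool.Agent.Helper8.RC

/-- Thue's lemma (pigeonhole with an integral basis: `(A + 1) ^ (2 d) > N(I)` pairs, `A = ⌊N(I) ^ (1 / 2d)⌋`) -/
def S_THUE : Prop :=
  ∀ (K : Type) [Field K] [NumberField K], ∃ c : ℝ, 1 ≤ c ∧
    ∀ I : Ideal (𝓞 K), I ≠ ⊥ → ∀ α : 𝓞 K, ∃ u v : 𝓞 K, ¬ (u = 0 ∧ v = 0) ∧ u - α * v ∈ I ∧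
      ∀ w : InfinitePlace K,
        w (u : K) ≤ c * (Ideal.absNorm I : ℝ) ^ (1 / (2 * (Module.finrank ℚ K : ℝ))) ∧
        w (v : K) ≤ c * (Ideal.absNorm I : ℝ) ^ (1 / (2 * (Module.finrank ℚ K : ℝ)))

/-- a prime modulo all powers of which `G` has a root (Schur: a prime divisor not dividing the
resultant `δ`, `A G + B G' = δ`, of a value `G(c₀ δ t)`; then Newton's method) -/
def S_HENS : Prop :=
  ∀ (K : Type) [Field K] [NumberField K] (G : K[X]), 1 ≤ G.natDegree → Squarefree G →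
    ∃ v : HeightOneSpectrum (𝓞 K), v ∉ badP G ∧ ∀ k : ℕ, ∃ α : 𝓞 K,
      FinitePlace.mk v (G.eval (α : K)) * (Ideal.absNorm v.asIdeal : ℝ) ^ k ≤ 1

open Classical in
/-- the bad primes of a point of the curve are zeros of the squarefree part of the product, or poles
of the parameter if the degrees are not all equal, up to finitely many -/
def S_UPP : Prop :=
  ∀ (K : Type) [Field K] [NumberField K] (n : ℕ) (P : Fin n → K[X]), (∀ i, P i ≠ 0) →
    ∃ C : ℝ, ∀ x : K, (∀ i, (P i).eval x ≠ 0) →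
      wt (fun v => Rd (fun i => (P i).eval x) v) ≤
        wt (fun v : HeightOneSpectrum (𝓞 K) =>
          v.valuation K ((UniqueFactorizationMonoid.radical (∏ i, P i)).eval x) < 1) +
        (if ∀ i j, (P i).natDegree = (P j).natDegree then 0 else
          wt (fun v : HeightOneSpectrum (𝓞 K) => 1 < v.valuation K x)) + C

/-- two rational cusps: `s = (α - 2 ^ k β) / (1 - 2 ^ k)` -/
def S_SPL2 : Prop :=
  ∀ (K : Type) [Field K] [NumberField K] (α β : K), α ≠ β → ∃ C : ℝ, ∀ B : ℝ, ∃ s : K,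
    B ≤ logHeight₁ s ∧ wt (fun v : HeightOneSpectrum (𝓞 K) => v.valuation K (s - α) < 1) ≤ C ∧
      wt (fun v : HeightOneSpectrum (𝓞 K) => v.valuation K (s - β) < 1) ≤ C

/-- a rational cusp and infinity: `s = α + 2 ^ k` -/
def S_SPL1 : Prop :=
  ∀ (K : Type) [Field K] [NumberField K] (α : K), ∃ C : ℝ, ∀ B : ℝ, ∃ s : K,
    B ≤ logHeight₁ s ∧ wt (fun v : HeightOneSpectrum (𝓞 K) => v.valuation K (s - α) < 1) ≤ C ∧
      wt (fun v : HeightOneSpectrum (𝓞 K) => 1 < v.valuation K s) ≤ C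

/-- the zeros of `y` and the order at one prime -/
def S_GAIN : Prop :=
  ∀ (K : Type) [Field K] [NumberField K] (y : K), y ≠ 0 → ∀ v₀ : HeightOneSpectrum (𝓞 K),
    wt (fun v : HeightOneSpectrum (𝓞 K) => v.valuation K y < 1) - Real.log (FinitePlace.mk v₀ y) ≤
      logHeight₁ y + ell v₀

/-- good approximations at one prime to a root of `G` -/
def S_APP : Prop :=
  ∀ (K : Type) [Field K] [NumberField K] (G : K[X]), 1 ≤ G.natDegree → Squarefree G →
    (∀ x : K, G.eval x ≠ 0) → ∃ (v₀ : HeightOneSpectrum (𝓞 K)) (C : ℝ), ∀ B : ℝ, ∃ s : K,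
      B ≤ logHeight₁ s ∧ 2 * logHeight₁ s - C ≤ - Real.log (FinitePlace.mk v₀ (G.eval s))

end Pool.Agent.Helper8.RX
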