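import Mathlib

set_option autoImplicit false

/-!
# Specialisation: statement
-/

namespace Pool.Agent.Helper8.RX

/-- A finitely generated algebra `F[s]` in a subfield `k` of `F(u_i, i ∈ σ)` has a homomorphism to the
infinite field `F`: `ι` maps it to `F[u][1/b]`, `b` a common denominator of the elements of `ι s`, and
`b` is different from zero at a point `u₀` of `F^σ` (`MvPolynomial.funext`); evaluate at `u₀`
(`IsLocalization.lift` or `Localization.awayLift` / `IsLocalization.Away.lift`). -/
def S_INST : Prop :=
  ∀ (F : Type) [Field F] [Infinite F] (σ k : Type) [Field k] [Algebra F k]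
    (_ : k →ₐ[F] FractionRing (MvPolynomial σ F)) (s : Finset k),
    Nonempty (Algebra.adjoin F (s : Set k) →ₐ[F] F)

end Pool.Agent.Helper8.RX
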