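import Pool.Agent.Helper8.RX.Stm

/-!
# The bad primes of a point of a curve are zeros or poles, up to finitely many (helper71)
-/

set_option autoImplicit false

namespace Pool.Agent.Helper8.RX

open NumberField IsDedekindDomain Height Polynomial Pool.Agent.Q290.NF Pool.Agent.Helper8.RC

theorem upp : S_UPP := by
  classical
  intro K _ _ n P h0
  obtain ⟨S, hS⟩ : ∃ S : K[X], S = UniqueFactorizationMonoid.radical (∏ i, P i) := ⟨_, rfl⟩
  have hprod0 : ∏ i, P i ≠ 0 := Finset.prod_ne_zero_iff.2 fun i _ => h0 i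
  obtain ⟨m, T, hT⟩ : ∃ (m : ℕ) (T : K[X]), S ^ m = (∏ i, P i) * T := by
    obtain ⟨m, hm⟩ := UniqueFactorizationMonoid.exists_dvd_radical_self_pow hprod0
    rw [← hS] at hm
    obtain ⟨T, hT⟩ := hm
    exact ⟨m, T, hT⟩
  obtain ⟨Bd, hBd⟩ : ∃ Bd : Set (HeightOneSpectrum (𝓞 K)), Bd =
    (⋃ i, badP (P i)) ∪ (badP T ∪ ⋃ i, nonunit (P i).leadingCoeff) := ⟨_, rfl⟩
  have hBdf : Bd.Finite := by
    rw [hBd]
    exact (Set.finite_iUnion fun i => badP_fin (P i)).union ((badP_fin T).union
      (Set.finite_iUnion fun i => nonunit_fin (leadingCoeff_ne_zero.2 (h0 i))))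
  refine ⟨wt (fun v : HeightOneSpectrum (𝓞 K) => v ∈ Bd), fun x hPx => ?_⟩
  rw [← hS]
  have hprod : (∏ i, P i).eval x ≠ 0 := by
    rw [eval_prod]
    exact Finset.prod_ne_zero_iff.2 fun i _ => hPx i
  have hSd : S ∣ ∏ i, P i := by
    rw [hS]
    exact UniqueFactorizationMonoid.radical_dvd_self
  have hSx : S.eval x ≠ 0 := by
    intro h
    apply hprod
    obtain ⟨Q, hQ⟩ := hSd
    rw [hQ, eval_mul, h, zero_mul]
  have hfz : {v : HeightOneSpectrum (𝓞 K) | v.valuation K (S.eval x) < 1}.Finite := fin_zero hSx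
  have hfp : {v : HeightOneSpectrum (𝓞 K) | 1 < v.valuation K x}.Finite := fin_pole x
  -- integral points
  have hzero : ∀ v : HeightOneSpectrum (𝓞 K), v ∉ Bd → v.valuation K x ≤ 1 →
      Rd (fun i => (P i).eval x) v → v.valuation K (S.eval x) < 1 := by
    intro v hb hx1 hR
    rw [hBd] at hb
    simp only [Set.mem_union, Set.mem_iUnion, not_or, not_exists] at hb
    obtain ⟨bP, bT, -⟩ := hb
    have vP : ∀ i, v.valuation K ((P i).eval x) ≤ 1 := fun i => eval_le_one (bP i) hx1
    have vT := eval_le_one bT hx1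
    obtain ⟨i, j, hij⟩ := hR
    have hlt : ∃ i, v.valuation K ((P i).eval x) < 1 := by
      by_contra hcon
      push Not at hcon
      exact hij ((le_antisymm (vP i) (hcon i)).trans (le_antisymm (vP j) (hcon j)).symm)
    obtain ⟨i, hi⟩ := hlt
    have h1 : v.valuation K ((∏ i, P i).eval x) < 1 := by
      rw [eval_prod, map_prod, ← Finset.mul_prod_erase Finset.univ _ (Finset.mem_univ i)]
      have h2 : ∏ j ∈ Finset.univ.erase i, v.valuation K ((P j).eval x) ≤ 1 :=
        Finset.prod_le_one (fun _ _ => zero_le) fun j _ => vP j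
      exact mul_lt_one_of_nonneg_of_lt_one_left zero_le hi h2
    have h3 : (v.valuation K (S.eval x)) ^ m < 1 := by
      have h4 : (S ^ m).eval x = (∏ i, P i).eval x * T.eval x := by
        rw [hT, eval_mul]
      rw [← map_pow, ← eval_pow, h4, map_mul]
      exact mul_lt_one_of_nonneg_of_lt_one_left zero_le h1 vT
    by_contra hcon
    push Not at hcon
    exact absurd h3 (not_lt.2 (one_le_pow₀ hcon))
  -- poles
  have hpole : ∀ v : HeightOneSpectrum (𝓞 K), v ∉ Bd → 1 < v.valuation K x →
      Rd (fun i => (P i).eval x) v → ¬ ∀ i j, (P i).natDegree = (P j).natDegree := by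
    intro v hb hx1 hR hdeg
    rw [hBd] at hb
    simp only [Set.mem_union, Set.mem_iUnion, not_or, not_exists] at hb
    obtain ⟨bP, -, lP⟩ := hb
    obtain ⟨i, j, hij⟩ := hR
    apply hij
    show v.valuation K ((P i).eval x) = v.valuation K ((P j).eval x)
    rw [eval_pole (bP i) (lP i) hx1, eval_pole (bP j) (lP j) hx1, hdeg i j]
  by_cases hinf : ∀ i j, (P i).natDegree = (P j).natDegree
  · rw [if_pos hinf, add_zero, add_comm]
    refine (wt_mono (hBdf.union hfz) ?_).trans (wt_or_le (P := fun v => v ∈ Bd) hBdf hfz)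
    intro v hv
    by_cases hb : v ∈ Bd
    · exact Or.inl hb
    · right
      by_cases hx1 : 1 < v.valuation K x
      · exact absurd hinf (hpole v hb hx1 hv)
      · exact hzero v hb (not_lt.1 hx1) hv
  · rw [if_neg hinf]
    have h1 : wt (fun v => Rd (fun i => (P i).eval x) v) ≤
        (wt (fun v : HeightOneSpectrum (𝓞 K) => v ∈ Bd) +
          wt (fun v : HeightOneSpectrum (𝓞 K) => v.valuation K (S.eval x) < 1)) +
        wt (fun v : HeightOneSpectrum (𝓞 K) => 1 < v.valuation K x) := by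
      refine (wt_mono ((hBdf.union hfz).union hfp) ?_).trans ((wt_or_le
        (P := fun v => v ∈ Bd ∨ v.valuation K (S.eval x) < 1) (hBdf.union hfz) hfp).trans
        (add_le_add (wt_or_le (P := fun v => v ∈ Bd) hBdf hfz) le_rfl))
      intro v hv
      by_cases hb : v ∈ Bd
      · exact Or.inl (Or.inl hb)
      · by_cases hx1 : 1 < v.valuation K x
        · exact Or.inr hx1
        · exact Or.inl (Or.inr (hzero v hb (not_lt.1 hx1) hv))
    linarith

end Pool.Agent.Helper8.RX
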